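import Pool.Agent.Helper65.TR.Main

set_option autoImplicit false

/-! The families of sets given by the normalised values of additive functions. -/

namespace Pool.Agent.Helper65.TR

open Finset Filter Topology
open Pool.Agent.Helper65.EK

/-- `f` is additive, bounded by one at the primes, the sum of the `f(p)² / p` diverges, and `a`, `b` are normalising
functions -/
structure Normal (f a b : ℕ → ℝ) : Prop where
  add : Add f
  bd : ∀ p, p.Prime → |f p| ≤ 1
  div : Tendsto (V f) atTop atTop
  ha : Tendsto (fun x => (a x - A f x) / Real.sqrt (V f x)) atTop (𝓝 0)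
  hb : Tendsto (fun x => b x / Real.sqrt (V f x)) atTop (𝓝 1)

/-- the integers with normalised value at most `y` -/
def Below (f a b : ℕ → ℝ) (y : ℝ) : Set ℕ := {v | f v ≤ a v + y * b v}

variable {f a b : ℕ → ℝ}

lemma ch_prod {ι : Type} [Fintype ι] (B : ι → Set ℕ) (x : ι → ℕ) [Decidable (∀ i, x i ∈ B i)] :
    ∏ i, ch (B i) (x i) = if ∀ i, x i ∈ B i then (1 : ℝ) else 0 := by
  classical
  split_ifs with h
  · apply prod_eq_one
    intro i _
    unfold ch
    rw [if_pos (h i)]
  · push Not at h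
    obtain ⟨i, hi⟩ := h
    apply prod_eq_zero (mem_univ i)
    unfold ch
    rw [if_neg hi]

theorem IL_G (hf : Add f) (hb : ∀ p, p.Prime → |f p| ≤ 1) (hV : Tendsto (V f) atTop atTop) : IL (G f) Phi := by
  classical
  intro ι _ α γ hF y
  refine (self_lim hf hb hV hF y).congr fun N => ?_
  congr 1
  unfold cntG
  rw [card_filter]
  push_cast
  apply sum_congr rfl
  intro s _
  rw [ch_prod]

theorem IL_Below (h : Normal f a b) : IL (Below f a b) Phi := by
  classical
  intro ι _ α γ hF y
  have hG := IL_G h.add h.bd h.div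
  have hcont : Continuous fun h : ℝ => ∏ i, Phi (y i + h) :=
    continuous_finset_prod _ fun i _ => Phi_cont.comp (continuous_const.add continuous_id)
  rw [Metric.tendsto_atTop]
  intro ε hε
  obtain ⟨δ, hδ, hδc⟩ := Metric.continuousAt_iff.1 (hcont.continuousAt (x := (0 : ℝ))) (ε / 4) (by positivity)
  set η : ℝ := δ / 2 with hη
  have hη0 : 0 < η := by positivity
  have hup : |∏ i, Phi (y i + η) - ∏ i, Phi (y i)| < ε / 4 := by
    have := hδc (x := η) (by rw [Real.dist_eq, sub_zero, abs_of_pos hη0]; linarith)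
    simp only [add_zero] at this
    rwa [Real.dist_eq] at this
  have hdown : |∏ i, Phi (y i - η) - ∏ i, Phi (y i)| < ε / 4 := by
    have := hδc (x := -η) (by rw [Real.dist_eq, sub_zero, abs_neg, abs_of_pos hη0]; linarith)
    simp only [add_zero] at this
    rw [Real.dist_eq] at this
    simpa [sub_eq_add_neg] using this
  -- the thresholds
  have hth : ∀ i, ∀ᶠ v : ℕ in atTop, (v ∈ Below f a b (y i) → v ∈ G f (y i + η)) ∧ (v ∈ G f (y i - η) → v ∈ Below f a b (y i)) := by
    intro i
    have h1 : Tendsto (fun x => (a x - A f x) / Real.sqrt (V f x) + y i * (b x / Real.sqrt (V f x) - 1)) atTop (𝓝 0) := by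
      have := h.ha.add ((h.hb.sub_const 1).const_mul (y i))
      simpa using this
    have h2 := h1.abs
    rw [abs_zero] at h2
    filter_upwards [h2.eventually (gt_mem_nhds hη0), h.div.eventually_gt_atTop 0] with v hv hV0
    have hs : 0 < Real.sqrt (V f v) := Real.sqrt_pos.2 hV0
    have h3 : (a v - A f v) / Real.sqrt (V f v) + y i * (b v / Real.sqrt (V f v) - 1) =
        ((a v + y i * b v) - (A f v + y i * Real.sqrt (V f v))) / Real.sqrt (V f v) := by
      field_simp
      ring
    rw [h3, abs_div, abs_of_pos hs, div_lt_iff₀ hs, abs_lt] at hv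
    constructor
    · intro hB
      have hB' : f v ≤ a v + y i * b v := hB
      show f v ≤ A f v + (y i + η) * Real.sqrt (V f v)
      linarith
    · intro hB
      have hB' : f v ≤ A f v + (y i - η) * Real.sqrt (V f v) := hB
      show f v ≤ a v + y i * b v
      linarith
  obtain ⟨v₀, hv₀⟩ := eventually_atTop.1 (eventually_all.2 hth)
  have hU := hG ι α γ hF (fun i => y i + η)
  have hL := hG ι α γ hF (fun i => y i - η)
  rw [Metric.tendsto_atTop] at hU hL
  obtain ⟨N₁, hN₁⟩ := hU (ε / 4) (by positivity)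
  obtain ⟨N₂, hN₂⟩ := hL (ε / 4) (by positivity)
  obtain ⟨N₃, hN₃⟩ := exists_nat_ge (4 * (v₀ : ℝ) / ε)
  refine ⟨max (max N₁ N₂) (max N₃ 1), fun N hN => ?_⟩
  have hN1 : 1 ≤ N := (le_max_right _ _).trans ((le_max_right _ _).trans hN)
  have hNr : (0 : ℝ) < N := by exact_mod_cast hN1
  have hsmall : ∀ (B B' : ι → Set ℕ), (∀ s, v₀ ≤ s → ∀ i, α i * s + γ i ∈ B i → α i * s + γ i ∈ B' i) →
      ∑ s ∈ range N, ∏ i, ch (B i) (α i * s + γ i) ≤ ∑ s ∈ range N, ∏ i, ch (B' i) (α i * s + γ i) + v₀ := by
    intro B B' hBB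
    have e1 : ∀ s ∈ range N, ∏ i, ch (B i) (α i * s + γ i) ≤ ∏ i, ch (B' i) (α i * s + γ i) + (if s < v₀ then (1 : ℝ) else 0) := by
      intro s _
      rw [ch_prod, ch_prod]
      by_cases hs : s < v₀
      · rw [if_pos hs]
        split_ifs <;> norm_num
      · rw [if_neg hs, add_zero]
        split_ifs with h1 h2
        · exact le_rfl
        · exact absurd (fun i => hBB s (not_lt.1 hs) i (h1 i)) h2
        · norm_num
        · exact le_rfl
    refine (sum_le_sum e1).trans ?_
    rw [sum_add_distrib]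
    apply add_le_add le_rfl
    rw [← sum_filter, sum_const, nsmul_eq_mul, mul_one]
    have : (range N).filter (fun s => s < v₀) ⊆ range v₀ := fun s hs => mem_range.2 (mem_filter.1 hs).2
    have h2 := card_le_card this
    rw [card_range] at h2
    exact_mod_cast h2
  have hsv : ∀ s, v₀ ≤ s → ∀ i, v₀ ≤ α i * s + γ i := by
    intro s hs i
    have := hF.a1 i
    nlinarith
  have b1 := hsmall (fun i => Below f a b (y i)) (fun i => G f (y i + η)) (fun s hs i hi => (hv₀ _ (hsv s hs i) i).1 hi)
  have b2 := hsmall (fun i => G f (y i - η)) (fun i => Below f a b (y i)) (fun s hs i hi => (hv₀ _ (hsv s hs i) i).2 hi)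
  have a1 := hN₁ N ((le_max_left _ _).trans ((le_max_left _ _).trans hN))
  have a2 := hN₂ N ((le_max_right _ _).trans ((le_max_left _ _).trans hN))
  rw [Real.dist_eq, abs_lt] at a1 a2
  rw [abs_lt] at hup hdown
  have hvN : (v₀ : ℝ) ≤ ε / 4 * N := by
    have h1 : 4 * (v₀ : ℝ) / ε ≤ N := hN₃.trans (by exact_mod_cast (le_max_left _ _).trans ((le_max_right _ _).trans hN))
    rw [div_le_iff₀ hε] at h1
    linarith
  have c1 : (∑ s ∈ range N, ∏ i, ch (Below f a b (y i)) (α i * s + γ i)) / N ≤
      (∑ s ∈ range N, ∏ i, ch (G f (y i + η)) (α i * s + γ i)) / N + ε / 4 := by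
    rw [div_add' _ _ _ hNr.ne', div_le_div_iff_of_pos_right hNr]
    linarith
  have c2 : (∑ s ∈ range N, ∏ i, ch (G f (y i - η)) (α i * s + γ i)) / N ≤
      (∑ s ∈ range N, ∏ i, ch (Below f a b (y i)) (α i * s + γ i)) / N + ε / 4 := by
    rw [div_add' _ _ _ hNr.ne', div_le_div_iff_of_pos_right hNr]
    linarith
  rw [Real.dist_eq, abs_lt]
  constructor <;> linarith

theorem Phi01 (y : ℝ) : 0 ≤ Phi y ∧ Phi y ≤ 1 := ⟨Phi_nonneg y, Phi_le_one y⟩

theorem normal_self (hf : Add f) (hb : ∀ p, p.Prime → |f p| ≤ 1) (hV : Tendsto (V f) atTop atTop) :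
    Normal f (A f) (fun x => Real.sqrt (V f x)) := by
  refine ⟨hf, hb, hV, ?_, ?_⟩
  · simp
  · refine Tendsto.congr' ?_ tendsto_const_nhds
    filter_upwards [hV.eventually_gt_atTop 0] with x hx
    rw [div_self (Real.sqrt_pos.2 hx).ne']

end Pool.Agent.Helper65.TR
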