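import Pool.Agent.Helper65.TR.Fam
import Pool.Agent.Helper256.KM.Mertens

set_option autoImplicit false

/-! The prime factors of the terms of the Syracuse orbits of almost all odd integers. -/

namespace Pool.Agent.Helper65.TR

open Finset Filter Topology
open Pool.Agent.Helper65.EK
open Pool.Agent.Helper65.LT (Slow slow_lead lead ncard_le_add)

/-! ### the number of the prime factors -/

/-- number of prime factors -/
noncomputable def om (n : ℕ) : ℝ := (ArithmeticFunction.cardDistinctFactors n : ℝ)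

/-- number of prime factors with multiplicity -/
noncomputable def Om (n : ℕ) : ℝ := (ArithmeticFunction.cardFactors n : ℝ)

lemma add_om : Add om := by
  intro m n hm hn hc
  unfold om
  rw [ArithmeticFunction.cardDistinctFactors_mul hc]
  push_cast
  rfl

lemma add_Om : Add Om := by
  intro m n hm hn _
  unfold Om
  rw [ArithmeticFunction.cardFactors_mul (by omega) (by omega)]
  push_cast
  rfl

lemma om_prime {p : ℕ} (hp : p.Prime) : om p = 1 := by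
  unfold om
  rw [ArithmeticFunction.cardDistinctFactors_apply_prime hp]
  norm_num

lemma Om_prime {p : ℕ} (hp : p.Prime) : Om p = 1 := by
  unfold Om
  rw [ArithmeticFunction.cardFactors_apply_prime hp]
  norm_num

theorem normal_loglog {f : ℕ → ℝ} (hf : Add f) (h1 : ∀ p, p.Prime → f p = 1) :
    Normal f (fun x => Real.log (Real.log x)) (fun x => Real.sqrt (Real.log (Real.log x))) := by
  have hA : ∀ x, A f x = ∑ p ∈ (Icc 1 x).filter Nat.Prime, (1 : ℝ) / p := by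
    intro x
    unfold A Pr
    apply sum_congr rfl
    intro p hp
    rw [h1 p (mem_filter.1 hp).2]
  have hV : ∀ x, V f x = ∑ p ∈ (Icc 1 x).filter Nat.Prime, (1 : ℝ) / p := by
    intro x
    unfold V Pr
    apply sum_congr rfl
    intro p hp
    rw [h1 p (mem_filter.1 hp).2, one_pow]
  obtain ⟨K, hK⟩ := Pool.Agent.Helper256.KM.Mert.mertens_inv
  have hll : Tendsto (fun x : ℕ => Real.log (Real.log x)) atTop atTop :=
    Real.tendsto_log_atTop.comp (Real.tendsto_log_atTop.comp tendsto_natCast_atTop_atTop)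
  have hVlim : Tendsto (V f) atTop atTop := by
    refine tendsto_atTop_mono' atTop ?_ (tendsto_atTop_add_const_right _ (-K) hll)
    filter_upwards [eventually_ge_atTop 3] with x hx
    have := (abs_le.1 (hK x hx)).1
    rw [hV]
    linarith
  have hs : Tendsto (fun x => Real.sqrt (V f x)) atTop atTop := Real.tendsto_sqrt_atTop.comp hVlim
  refine ⟨hf, fun p hp => by rw [h1 p hp]; norm_num, hVlim, ?_, ?_⟩
  · have h2 : Tendsto (fun x => |K| / Real.sqrt (V f x)) atTop (𝓝 0) := hs.const_div_atTop _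
    refine squeeze_zero_norm' ?_ h2
    filter_upwards [eventually_ge_atTop 3] with x hx
    rw [Real.norm_eq_abs, abs_div, abs_of_nonneg (Real.sqrt_nonneg _)]
    apply div_le_div_of_nonneg_right _ (Real.sqrt_nonneg _)
    rw [hA, abs_sub_comm]
    exact (hK x hx).trans (le_abs_self _)
  · have h3 : Tendsto (fun x : ℕ => Real.log (Real.log x) / V f x) atTop (𝓝 1) := by
      have h4 : Tendsto (fun x => |K| / V f x) atTop (𝓝 0) := hVlim.const_div_atTop _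
      have h5 : Tendsto (fun x : ℕ => Real.log (Real.log x) / V f x - 1) atTop (𝓝 0) := by
        refine squeeze_zero_norm' ?_ h4
        filter_upwards [eventually_ge_atTop 3, hVlim.eventually_gt_atTop 0] with x hx hx0
        rw [div_sub_one hx0.ne', Real.norm_eq_abs, abs_div, abs_of_pos hx0]
        apply div_le_div_of_nonneg_right _ hx0.le
        rw [hV, abs_sub_comm]
        exact (hK x hx).trans (le_abs_self _)
      have := h5.add_const 1
      simpa using this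
    have h6 := (Real.continuous_sqrt.tendsto 1).comp h3
    rw [Real.sqrt_one] at h6
    refine h6.congr' ?_
    filter_upwards [hll.eventually_ge_atTop 0] with x hx
    rw [Function.comp, Real.sqrt_div hx]

/-! ### almost all odd integers -/

/-- leading digits -/
noncomputable def ldr (B a b : ℝ) (x : ℕ) : ℝ := by
  classical
  exact if a ≤ Int.fract (Real.logb B x) ∧ Int.fract (Real.logb B x) < b then 1 else 0

lemma ldr_le (B a b : ℝ) (x : ℕ) : |ldr B a b x| ≤ 1 := by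
  unfold ldr
  split_ifs <;> simp

lemma ldr_slow {B a b : ℝ} (hB : 1 < B) (ha : 0 ≤ a) (hab : a ≤ b) (hb : b ≤ 1) : Slow (fun x => ((ldr B a b x : ℝ) : ℂ)) := by
  have h := slow_lead hB ha hab hb
  have e : (fun x => ((ldr B a b x : ℝ) : ℂ)) = lead B a b := by
    funext x
    unfold ldr lead
    split_ifs <;> simp
  rw [e]
  exact h

variable {d : ℤ}

/-- few exceptions -/
def Rare (P : ℕ → Prop) : Prop := ∀ η : ℝ, 0 < η → ∃ N₀ : ℕ, ∀ N ≥ N₀, (({n : ℕ | 1 ≤ n ∧ n ≤ N ∧ P n} : Set ℕ).ncard : ℝ) ≤ η * N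

lemma fin_set (P : ℕ → Prop) (N : ℕ) : {n : ℕ | 1 ≤ n ∧ n ≤ N ∧ P n}.Finite := by
  apply (Set.finite_Icc 1 N).subset
  rintro n ⟨h1, h2, _⟩
  exact ⟨h1, h2⟩

theorem Rare.mono {P Q : ℕ → Prop} (hQ : Rare Q) (h : ∀ n, 1 ≤ n → P n → Q n) : Rare P := by
  intro η hη
  obtain ⟨N₀, hN₀⟩ := hQ η hη
  refine ⟨N₀, fun N hN => le_trans ?_ (hN₀ N hN)⟩
  have : {n : ℕ | 1 ≤ n ∧ n ≤ N ∧ P n} ⊆ {n : ℕ | 1 ≤ n ∧ n ≤ N ∧ Q n} := fun n hn => ⟨hn.1, hn.2.1, h n hn.1 hn.2.2⟩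
  exact_mod_cast Set.ncard_le_ncard this (fin_set Q N)

theorem Rare.or {P Q : ℕ → Prop} (hP : Rare P) (hQ : Rare Q) : Rare (fun n => P n ∨ Q n) := by
  intro η hη
  obtain ⟨N₁, hN₁⟩ := hP (η / 2) (by positivity)
  obtain ⟨N₂, hN₂⟩ := hQ (η / 2) (by positivity)
  refine ⟨max N₁ N₂, fun N hN => ?_⟩
  have h1 := hN₁ N ((le_max_left _ _).trans hN)
  have h2 := hN₂ N ((le_max_right _ _).trans hN)
  refine (ncard_le_add fun n _ _ h => h).trans ?_
  linarith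

theorem rare_fin {P : ℕ → Prop} (h : ∀ᶠ n in atTop, ¬ P n) : Rare P := by
  obtain ⟨K, hK⟩ := eventually_atTop.1 h
  intro η hη
  obtain ⟨N₀, hN₀⟩ := exists_nat_ge (K / η)
  refine ⟨N₀, fun N hN => ?_⟩
  have h1 : (({n : ℕ | 1 ≤ n ∧ n ≤ N ∧ P n} : Set ℕ).ncard : ℝ) ≤ K := by
    have h2 : {n : ℕ | 1 ≤ n ∧ n ≤ N ∧ P n} ⊆ {n : ℕ | 1 ≤ n ∧ n ≤ N ∧ (n ≤ K ∧ True)} := by
      rintro n ⟨a1, a2, a3⟩
      refine ⟨a1, a2, ?_, trivial⟩
      by_contra hcon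
      exact hK n (by omega) a3
    have h3 := Set.ncard_le_ncard h2 (fin_set _ N)
    exact (show (({n : ℕ | 1 ≤ n ∧ n ≤ N ∧ P n} : Set ℕ).ncard : ℝ) ≤ _ by exact_mod_cast h3).trans
      (Pool.Agent.Helper65.LT.ncard_small _ N K)
  have h2 : K / η ≤ (N : ℝ) := hN₀.trans (by exact_mod_cast hN)
  rw [div_le_iff₀ hη] at h2
  linarith

theorem rare_of {D : ℕ → ℕ → ℝ} (h : ∀ ε : ℝ, 0 < ε → ∃ N₀ : ℕ, ∀ N ≥ N₀, (({n : ℕ | 1 ≤ n ∧ n ≤ N ∧ ∃ t : ℕ,
      (t : ℝ) ≤ 2 / Real.log (4 / 3) * Real.log n ∧ ε * Real.log n < D n t} : Set ℕ).ncard : ℝ) ≤ ε * N) {ε : ℝ} (hε : 0 < ε) :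
    Rare (fun n => ∃ t : ℕ, (t : ℝ) ≤ 2 / Real.log (4 / 3) * Real.log n ∧ ε * Real.log n < D n t) := by
  intro η hη
  obtain ⟨N₀, hN₀⟩ := h (min ε η) (by positivity)
  refine ⟨N₀, fun N hN => ?_⟩
  have hsub : {n : ℕ | 1 ≤ n ∧ n ≤ N ∧ ∃ t : ℕ, (t : ℝ) ≤ 2 / Real.log (4 / 3) * Real.log n ∧ ε * Real.log n < D n t} ⊆
      {n : ℕ | 1 ≤ n ∧ n ≤ N ∧ ∃ t : ℕ, (t : ℝ) ≤ 2 / Real.log (4 / 3) * Real.log n ∧ min ε η * Real.log n < D n t} := by
    rintro n ⟨h1, h2, t, ht, h3⟩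
    exact ⟨h1, h2, t, ht, lt_of_le_of_lt (mul_le_mul_of_nonneg_right (min_le_left _ _)
      (Real.log_nonneg (by exact_mod_cast h1))) h3⟩
  have h4 := Set.ncard_le_ncard hsub (fin_set _ N)
  refine (show (_ : ℝ) ≤ _ by exact_mod_cast h4).trans ((hN₀ N hN).trans ?_)
  exact mul_le_mul_of_nonneg_right (min_le_right _ _) (Nat.cast_nonneg _)

/-- general form: functions vanishing at the even integers -/
theorem rare_syr (hd : d = 1 ∨ d = -1) {G : ℕ → ℝ} (hG0 : ∀ x, x % 2 = 0 → G x = 0) (hG1 : ∀ x, |G x| ≤ 1)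
    (h : ∀ ε : ℝ, 0 < ε → ∃ N₀ : ℕ, ∀ N ≥ N₀, (({n : ℕ | 1 ≤ n ∧ n ≤ N ∧ ∃ t : ℕ,
      (t : ℝ) ≤ 2 / Real.log (4 / 3) * Real.log n ∧ ε * Real.log n < |∑ k ∈ range t, G ((U d)^[k] n)|} : Set ℕ).ncard : ℝ) ≤ ε * N)
    {ε : ℝ} (hε : 0 < ε) :
    Rare (fun n => n % 2 = 1 ∧ ¬ ∀ t : ℕ, (t : ℝ) ≤ 1 / Real.log (4 / 3) * Real.log n →
      |∑ k ∈ range t, G ((S d)^[k] n)| ≤ ε * Real.log n) := by
  have h1 := rare_of h (ε := ε / 3) (by positivity)
  have h2 := rare_of (fun ε hε => parity hd hε) (ε := ε / 3) (by positivity)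
  have h3 : Rare (fun n : ℕ => ¬ 2 ≤ ε / 3 * Real.log n) := by
    apply rare_fin
    have h4 : Tendsto (fun n : ℕ => ε / 3 * Real.log n) atTop atTop :=
      (Real.tendsto_log_atTop.comp tendsto_natCast_atTop_atTop).const_mul_atTop (by positivity)
    filter_upwards [h4.eventually_ge_atTop 2] with n hn
    exact not_not.2 hn
  refine ((h1.or h2).or h3).mono ?_
  rintro n _ ⟨hodd, hbad⟩
  by_contra hcon
  push Not at hcon
  obtain ⟨⟨c1, c2⟩, c3⟩ := hcon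
  apply hbad
  intro t ht
  have hc0 : 0 ≤ 1 / Real.log (4 / 3) := by
    have : 0 < Real.log (4 / 3) := Real.log_pos (by norm_num)
    positivity
  have e2 : 2 * (1 / Real.log (4 / 3)) = 2 / Real.log (4 / 3) := by ring
  have := to_syr hd hodd hG0 hG1 hc0 c3 (fun u hu => c1 u (by rwa [e2] at hu)) (fun u hu => c2 u (by rwa [e2] at hu)) t ht
  linarith

theorem almost (hd : d = 1 ∨ d = -1) {f a b : ℕ → ℝ} (h : Normal f a b) (m : ℕ) (y : ℕ → ℝ) {M : ℕ} (hM : 1 ≤ M) (r : ℕ)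
    {B α β : ℝ} (hB : 1 < B) (hα : 0 ≤ α) (hαβ : α ≤ β) (hβ : β ≤ 1) {ε : ℝ} (hε : 0 < ε) :
    Rare (fun n => n % 2 = 1 ∧ ¬ ∀ t : ℕ, (t : ℝ) ≤ 1 / Real.log (4 / 3) * Real.log n →
      |∑ k ∈ range t, gw d (Below f a b) Phi y m M r (ldr B α β) ((S d)^[k] n)| ≤ ε * Real.log n) := by
  apply rare_syr hd _ _ _ hε
  · intro x hx
    unfold gw g0
    rw [if_neg (by omega), mul_zero]
  · exact gw_le Phi01 y m M r (ldr_le B α β)
  · exact fun ε hε => mainU hd (IL_Below h) Phi01 y m hM r (ldr_le B α β) (ldr_slow hB hα hαβ hβ) hε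

/-- the value at a time near the end -/
theorem near_end {D : ℕ → ℝ} {c L η : ℝ} {τ : ℕ} (hD : ∀ s t, s ≤ t → |D t - D s| ≤ (t : ℝ) - s)
    (hc : 0 ≤ c) (hL : 0 ≤ L) (h : ∀ t : ℕ, (t : ℝ) ≤ c * L → |D t| ≤ η * L)
    (hτ : |(τ : ℝ) - c * L| ≤ η * L) (h1 : 1 ≤ η * L) : |D τ| ≤ 3 * (η * L) := by
  rw [abs_le] at hτ
  by_cases h2 : (τ : ℝ) ≤ c * L
  · refine (h τ h2).trans ?_
    linarith
  push Not at h2
  have hcL : 0 ≤ c * L := by positivity
  have h3 : ((⌊c * L⌋₊ : ℕ) : ℝ) ≤ c * L := Nat.floor_le hcL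
  have h4 : c * L < ⌊c * L⌋₊ + 1 := Nat.lt_floor_add_one _
  have h5 := h _ h3
  have h6 : ⌊c * L⌋₊ ≤ τ := by
    have : ((⌊c * L⌋₊ : ℕ) : ℝ) ≤ τ := h3.trans h2.le
    exact_mod_cast this
  have h7 := hD _ _ h6
  rw [abs_le] at h5 h7 ⊢
  constructor <;> linarith

lemma sum_lip {G : ℕ → ℝ} (hG : ∀ k, |G k| ≤ 1) (s t : ℕ) (h : s ≤ t) :
    |∑ k ∈ range t, G k - ∑ k ∈ range s, G k| ≤ (t : ℝ) - s := by
  rw [← Finset.sum_range_add_sum_Ico _ h, add_sub_cancel_left]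
  refine (abs_sum_le_sum_abs _ _).trans ((sum_le_sum fun k _ => hG k).trans ?_)
  rw [sum_const, Nat.card_Ico, nsmul_eq_mul, mul_one, Nat.cast_sub h]

end Pool.Agent.Helper65.TR
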