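import Pool.Agent.Helper65.TR.Neg
import Pool.Agent.Results.MP_2d22f3_nt.LiouvilleAlongTrajectories

set_option autoImplicit false

/-! Functions with small local averages along the Syracuse orbits. -/

namespace Pool.Agent.Helper65.TR

open Finset Filter Topology
open Pool.Agent.Helper65.LT (Slow slow_lead lead ncard_le_add Expo short_slow)
open Pool.Agent.Results.MP_2d22f3_nt.LiouvilleAlongTrajectories (e orth_ind ee_eq)

/-- small local averages -/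
def LZs (G : ℕ → ℂ) : Prop := ∀ q : ℕ, 1 ≤ q → ∀ η : ℝ, 0 < η → ∃ H₁ : ℕ, ∀ H : ℕ, H₁ ≤ H → ∃ X₀ : ℕ, ∀ X : ℕ, X₀ ≤ X →
  ∑ x ∈ Icc 1 X, ‖∑ k ∈ range H, G (x + q * k)‖ ≤ η * H * X

lemma LZs.smul {G : ℕ → ℂ} (h : LZs G) (c : ℂ) : LZs (fun x => c * G x) := by
  intro q hq η hη
  obtain ⟨H₁, hH₁⟩ := h q hq (η / (‖c‖ + 1)) (by positivity)
  refine ⟨H₁, fun H hH => ?_⟩
  obtain ⟨X₀, hX₀⟩ := hH₁ H hH
  refine ⟨X₀, fun X hX => ?_⟩
  have h1 : ∀ x ∈ Icc 1 X, ‖∑ k ∈ range H, c * G (x + q * k)‖ = ‖c‖ * ‖∑ k ∈ range H, G (x + q * k)‖ := by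
    intro x _
    rw [← mul_sum, norm_mul]
  rw [sum_congr rfl h1, ← mul_sum]
  have h2 := hX₀ X hX
  have h3 : (0 : ℝ) ≤ H * X := by positivity
  calc ‖c‖ * ∑ x ∈ Icc 1 X, ‖∑ k ∈ range H, G (x + q * k)‖ ≤ (‖c‖ + 1) * (η / (‖c‖ + 1) * H * X) := by
        apply mul_le_mul (by linarith) h2 (sum_nonneg fun _ _ => norm_nonneg _) (by positivity)
    _ = η * H * X := by
        field_simp

lemma LZs.add {G G' : ℕ → ℂ} (h : LZs G) (h' : LZs G') : LZs (fun x => G x + G' x) := by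
  intro q hq η hη
  obtain ⟨H₁, hH₁⟩ := h q hq (η / 2) (by positivity)
  obtain ⟨H₂, hH₂⟩ := h' q hq (η / 2) (by positivity)
  refine ⟨max H₁ H₂, fun H hH => ?_⟩
  obtain ⟨X₁, hX₁⟩ := hH₁ H ((le_max_left _ _).trans hH)
  obtain ⟨X₂, hX₂⟩ := hH₂ H ((le_max_right _ _).trans hH)
  refine ⟨max X₁ X₂, fun X hX => ?_⟩
  have h1 := hX₁ X ((le_max_left _ _).trans hX)
  have h2 := hX₂ X ((le_max_right _ _).trans hX)
  calc ∑ x ∈ Icc 1 X, ‖∑ k ∈ range H, (G (x + q * k) + G' (x + q * k))‖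
      ≤ ∑ x ∈ Icc 1 X, (‖∑ k ∈ range H, G (x + q * k)‖ + ‖∑ k ∈ range H, G' (x + q * k)‖) := by
        apply sum_le_sum
        intro x _
        rw [sum_add_distrib]
        exact norm_add_le _ _
    _ ≤ η * H * X := by
        rw [sum_add_distrib]
        linarith

lemma LZs.sum {ι : Type} {G : ι → ℕ → ℂ} (s : Finset ι) (h : ∀ i ∈ s, LZs (G i)) : LZs (fun x => ∑ i ∈ s, G i x) := by
  classical
  induction s using Finset.induction_on with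
  | empty =>
    intro q hq η hη
    refine ⟨0, fun H _ => ⟨0, fun X _ => ?_⟩⟩
    simp only [sum_empty, sum_const_zero, norm_zero]
    positivity
  | insert i s hi ih =>
    have h1 := (h i (mem_insert_self _ _)).add (ih fun j hj => h j (mem_insert_of_mem hj))
    simp only [sum_insert hi]
    exact h1

/-- phases -/
theorem lzs_phase {f v : ℕ → ℂ} (hE : Expo f) (hb : ∀ n, ‖f n‖ ≤ 1) (hv : ∀ n, ‖v n‖ ≤ 1) (hs : Slow v) (β : ℝ) :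
    LZs (fun x => f x * v x * e (β * x)) := by
  intro q hq η hη
  obtain ⟨H₁, hH₁⟩ := short_slow hE hb hv hs hq hη
  refine ⟨H₁, fun H hH => ?_⟩
  obtain ⟨X₀, hX₀⟩ := hH₁ H hH
  refine ⟨X₀, fun X hX => ?_⟩
  refine le_trans (le_of_eq ?_) (hX₀ X hX β)
  apply sum_congr rfl
  intro x _
  congr 1
  apply sum_congr rfl
  intro k _
  show f (x + q * k) * v (x + q * k) * e (β * ((x + q * k : ℕ) : ℝ)) = _
  rw [← ee_eq, mul_comm β]

lemma e_add (x y : ℝ) : e (x + y) = e x * e y := by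
  rw [← ee_eq, ← ee_eq, ← ee_eq, ← Pool.Agent.H807R2.Dav.ee_add]

lemma norm_e (x : ℝ) : ‖e x‖ = 1 := by
  rw [← ee_eq]
  exact Pool.Agent.H807R2.Dav.norm_ee x

/-- residue classes -/
lemma LZs.class {G : ℕ → ℂ} (h : ∀ β : ℝ, LZs (fun x => G x * e (β * x))) {M : ℕ} (hM : 0 < M) {r : ℕ} (hr : r < M) (β : ℝ) :
    LZs (fun x => (G x * (if x % M = r then (1 : ℂ) else 0)) * e (β * x)) := by
  have h1 : LZs (fun x => ∑ j ∈ range M, (e (-((j : ℝ) * (r / M))) / M) * (G x * e (((j : ℝ) / M + β) * x))) :=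
    LZs.sum (range M) fun j _ => (h ((j : ℝ) / M + β)).smul _
  have h2 : (fun x : ℕ => ∑ j ∈ range M, (e (-((j : ℝ) * (r / M))) / M) * (G x * e (((j : ℝ) / M + β) * x))) =
      fun x : ℕ => (G x * (if x % M = r then (1 : ℂ) else 0)) * e (β * x) := by
    funext x
    rw [orth_ind M hM r hr, mul_div_assoc', mul_sum, sum_div, sum_mul]
    apply sum_congr rfl
    intro j _
    rw [add_mul, e_add]
    ring
  rw [← h2]
  exact h1

/-- the classical functions on the odd integers in a residue class -/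
theorem lzs_f {f v : ℕ → ℂ} (hE : Expo f) (hb : ∀ n, ‖f n‖ ≤ 1) (hv : ∀ n, ‖v n‖ ≤ 1) (hs : Slow v) {M : ℕ} (hM : 0 < M)
    {r : ℕ} (hr : r < M) (β : ℝ) :
    LZs (fun x => (f x * v x * (if x % 2 = 1 then (1 : ℂ) else 0) * (if x % M = r then (1 : ℂ) else 0)) * e (β * x)) :=
  LZs.class (fun β => LZs.class (fun β => lzs_phase hE hb hv hs β) (by norm_num) (by norm_num) β) hM hr β

/-- small local averages along progressions with differences `2 · 3^j` -/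
def LZ (G : ℕ → ℝ) : Prop := ∀ j : ℕ, ∀ η : ℝ, 0 < η → ∃ H : ℕ, 1 ≤ H ∧ ∃ X₀ : ℕ, ∀ X : ℕ, X₀ ≤ X →
  ∑ x ∈ Icc 1 X, |∑ k ∈ range H, G (x + 2 * 3 ^ (j + 1) * k)| ≤ η * H * X

lemma LZs.re {G : ℕ → ℂ} (h : LZs G) : LZ (fun x => (G x).re) := by
  intro j η hη
  obtain ⟨H₁, hH₁⟩ := h (2 * 3 ^ (j + 1)) (Nat.succ_le_of_lt (by positivity)) η hη
  obtain ⟨X₀, hX₀⟩ := hH₁ (H₁ + 1) (by omega)
  refine ⟨H₁ + 1, by omega, X₀, fun X hX => le_trans ?_ (hX₀ X hX)⟩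
  apply sum_le_sum
  intro x _
  rw [← Complex.re_sum]
  exact Complex.abs_re_le_norm _

lemma LZs.im {G : ℕ → ℂ} (h : LZs G) : LZ (fun x => (G x).im) := by
  intro j η hη
  obtain ⟨H₁, hH₁⟩ := h (2 * 3 ^ (j + 1)) (Nat.succ_le_of_lt (by positivity)) η hη
  obtain ⟨X₀, hX₀⟩ := hH₁ (H₁ + 1) (by omega)
  refine ⟨H₁ + 1, by omega, X₀, fun X hX => le_trans ?_ (hX₀ X hX)⟩
  apply sum_le_sum
  intro x _
  rw [← Complex.im_sum]
  exact Complex.abs_im_le_norm _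

variable {d : ℤ}

theorem lz_along (hd : d = 1 ∨ d = -1) {G : ℕ → ℝ} (hG1 : ∀ x, |G x| ≤ 1) (h : LZ G) {ε : ℝ} (hε : 0 < ε) :
    ∃ N₀ : ℕ, ∀ N ≥ N₀, (({n : ℕ | 1 ≤ n ∧ n ≤ N ∧ ∃ t : ℕ,
      (t : ℝ) ≤ 2 / Real.log (4 / 3) * Real.log n ∧ ε * Real.log n < |∑ k ∈ range t, G ((U d)^[k] n)|} : Set ℕ).ncard : ℝ) ≤ ε * N := by
  obtain ⟨m, δ, hδ, htr⟩ := transfer hd hε
  obtain ⟨H, hH, X₀, hX₀⟩ := h m δ hδ
  obtain ⟨N₀, hN₀⟩ := htr (2 * 3 ^ (m + 1)) H (Nat.succ_le_of_lt (by positivity)) ⟨2 * 3, by ring⟩ hH X₀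
  exact ⟨N₀, fun N hN => hN₀ N hN (fun _ x => G x) (fun _ x => hG1 x) (fun _ X hX => hX₀ X hX)⟩

theorem lz_syr (hd : d = 1 ∨ d = -1) {G : ℕ → ℝ} (hG0 : ∀ x, x % 2 = 0 → G x = 0) (hG1 : ∀ x, |G x| ≤ 1) (h : LZ G)
    {ε : ℝ} (hε : 0 < ε) :
    Rare (fun n => n % 2 = 1 ∧ ¬ ∀ t : ℕ, (t : ℝ) ≤ 1 / Real.log (4 / 3) * Real.log n →
      |∑ k ∈ range t, G ((S d)^[k] n)| ≤ ε * Real.log n) :=
  rare_syr hd hG0 hG1 (fun _ hε => lz_along hd hG1 h hε) hε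

end Pool.Agent.Helper65.TR
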