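import Pool.Agent.Helper65.TR.Syr
import Pool.Agent.Helper65.EK.Self

set_option autoImplicit false

/-! Local averages of functions of the first terms of the Syracuse orbit. -/

namespace Pool.Agent.Helper65.TR

open Finset Filter Topology
open Pool.Agent.Helper65.EK (Forms)

/-- indicator functions -/
noncomputable def ch (A : Set ℕ) (x : ℕ) : ℝ := by
  classical
  exact if x ∈ A then 1 else 0

lemma ch_nonneg (A : Set ℕ) (x : ℕ) : 0 ≤ ch A x := by
  unfold ch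
  split_ifs <;> norm_num

lemma ch_le (A : Set ℕ) (x : ℕ) : ch A x ≤ 1 := by
  unfold ch
  split_ifs <;> norm_num

/-- a family of sets which is independent along linear forms -/
def IL {κ : Type} (𝒢 : κ → Set ℕ) (φ : κ → ℝ) : Prop :=
  ∀ (ι : Type) [Fintype ι] (α γ : ι → ℕ), Forms α γ → ∀ y : ι → κ,
    Tendsto (fun N : ℕ => (∑ s ∈ range N, ∏ i, ch (𝒢 (y i)) (α i * s + γ i)) / N) atTop (𝓝 (∏ i, φ (y i)))

variable {d : ℤ} {κ : Type} {𝒢 : κ → Set ℕ} {φ : κ → ℝ}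

/-- all terms are in the given sets -/
noncomputable def Ip (d : ℤ) (𝒢 : κ → Set ℕ) (y : ℕ → κ) (m x : ℕ) : ℝ := ∏ i ∈ range m, ch (𝒢 (y i)) ((S d)^[i] x)

lemma Ip_nonneg (y : ℕ → κ) (m x : ℕ) : 0 ≤ Ip d 𝒢 y m x := prod_nonneg fun _ _ => ch_nonneg _ _

lemma Ip_le (y : ℕ → κ) (m x : ℕ) : Ip d 𝒢 y m x ≤ 1 := prod_le_one (fun _ _ => ch_nonneg _ _) fun _ _ => ch_le _ _

/-- the difference from the expected value -/
noncomputable def psi (d : ℤ) (𝒢 : κ → Set ℕ) (φ : κ → ℝ) (y : ℕ → κ) (m x : ℕ) : ℝ :=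
  Ip d 𝒢 y m x - ∏ i ∈ range m, φ (y i)

lemma phi_prod (hφ : ∀ k, 0 ≤ φ k ∧ φ k ≤ 1) (y : ℕ → κ) (m : ℕ) : 0 ≤ ∏ i ∈ range m, φ (y i) ∧ ∏ i ∈ range m, φ (y i) ≤ 1 :=
  ⟨prod_nonneg fun _ _ => (hφ _).1, prod_le_one (fun _ _ => (hφ _).1) fun _ _ => (hφ _).2⟩

lemma psi_le (hφ : ∀ k, 0 ≤ φ k ∧ φ k ≤ 1) (y : ℕ → κ) (m x : ℕ) : |psi d 𝒢 φ y m x| ≤ 1 := by
  have h1 := Ip_nonneg (d := d) (𝒢 := 𝒢) y m x
  have h2 := Ip_le (d := d) (𝒢 := 𝒢) y m x
  have h3 := phi_prod hφ y m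
  unfold psi
  rw [abs_le]
  constructor <;> linarith

lemma not_prop {Q : ℕ → ℕ} {m : ℕ} {c : ℕ} (hd : d = 1 ∨ d = -1) (hc : c % 2 = 1) (h2 : ∀ i ≤ m, 2 ∣ Q i ∧ 1 ≤ Q i)
    (hr : ∀ i < m, ∃ e : ℕ, 1 ≤ e ∧ 2 ^ e * Q (i + 1) = 3 * Q i) {i j : ℕ} (hij : i < j) (hj : j ≤ m) (a b : ℕ) :
    Q i * (Q j * b + (S d)^[j] c) ≠ Q j * (Q i * a + (S d)^[i] c) := by
  intro h
  obtain ⟨e, he, h3⟩ := rel hr hij hj
  have h4 : 2 ^ e * (Q i * (Q j * b + (S d)^[j] c)) = 2 ^ e * (Q j * (Q i * a + (S d)^[i] c)) := by rw [h]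
  have h5 : Q i * (2 ^ e * (Q j * b + (S d)^[j] c)) = Q i * (3 ^ (j - i) * (Q i * a + (S d)^[i] c)) := by
    calc Q i * (2 ^ e * (Q j * b + (S d)^[j] c)) = 2 ^ e * (Q i * (Q j * b + (S d)^[j] c)) := by ring
      _ = 2 ^ e * (Q j * (Q i * a + (S d)^[i] c)) := h4
      _ = (2 ^ e * Q j) * (Q i * a + (S d)^[i] c) := by ring
      _ = (3 ^ (j - i) * Q i) * (Q i * a + (S d)^[i] c) := by rw [h3]
      _ = _ := by ring
  have h6 := Nat.eq_of_mul_eq_mul_left (h2 i (by omega)).2 h5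
  have h7 : Odd (3 ^ (j - i) * (Q i * a + (S d)^[i] c)) := by
    apply Odd.mul
    · exact Odd.pow (by decide)
    · rw [Nat.odd_iff]
      obtain ⟨t, ht⟩ := (h2 i (by omega)).1
      have h8 := Si_odd hd hc i
      rw [ht, mul_assoc]
      omega
  rw [← h6] at h7
  obtain ⟨e', rfl⟩ : ∃ e', e = e' + 1 := ⟨e - 1, by omega⟩
  rw [Nat.odd_iff, pow_succ, show 2 ^ e' * 2 * (Q j * b + (S d)^[j] c) = 2 * (2 ^ e' * (Q j * b + (S d)^[j] c)) by ring] at h7
  omega

/-- one class -/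
theorem cls (hd : d = 1 ∨ d = -1) (hIL : IL 𝒢 φ) (hφ : ∀ k, 0 ≤ φ k ∧ φ k ≤ 1) (y : ℕ → κ) {m L c r : ℕ} (hc : c % 2 = 1)
    (hr : 1 ≤ r) (hG : Gd d m L c) {δ : ℝ} (hδ : 0 < δ) {H : ℕ} (hH : 2 / δ ^ 2 ≤ H) :
    ∀ᶠ X : ℕ in atTop, ∑ s ∈ range X, |∑ j ∈ range H, psi d 𝒢 φ y m (c + 2 ^ L * r * (s + j))| ≤ δ * H * X := by
  obtain ⟨Q, hQ0, hQ1, hQ2, hQ3⟩ := lin hd m L c r hc hr hG
  set F : ℕ → ℝ := fun s => psi d 𝒢 φ y m (c + 2 ^ L * r * s) with hF
  set Φ : ℝ := ∏ i ∈ range m, φ (y i) with hΦ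
  have hterm : ∀ i : Fin m, ∀ s, (S d)^[(i : ℕ)] (c + 2 ^ L * r * s) = (S d)^[(i : ℕ)] c + Q i * s := fun i s => hQ2 i i.2.le s
  have hIp : ∀ j s, Ip d 𝒢 y m (c + 2 ^ L * r * (s + j)) = ∏ i : Fin m, ch (𝒢 (y i)) (Q i * s + (Q i * j + (S d)^[(i : ℕ)] c)) := by
    intro j s
    unfold Ip
    rw [prod_range]
    apply prod_congr rfl
    intro i _
    rw [hterm]
    congr 1
    ring
  have hΦ' : ∏ i : Fin m, φ (y i) = Φ := by rw [hΦ, prod_range]
  -- the averages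
  have hone : ∀ j, Tendsto (fun N : ℕ => (∑ s ∈ range N, Ip d 𝒢 y m (c + 2 ^ L * r * (s + j))) / N) atTop (𝓝 Φ) := by
    intro j
    have h := hIL (Fin m) (fun i => Q i) (fun i => Q i * j + (S d)^[(i : ℕ)] c) ⟨fun i => (hQ1 i i.2.le).2, fun i => by
      have := Si_pos hd (x := c) (by omega) i
      omega, fun i i' hii => by
      rcases lt_trichotomy (i : ℕ) i' with h1 | h1 | h1
      · exact not_prop hd hc hQ1 hQ3 h1 i'.2.le j j
      · exact absurd (Fin.ext h1) hii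
      · exact (not_prop hd hc hQ1 hQ3 h1 i.2.le j j).symm⟩ (fun i => y i)
    rw [hΦ'] at h
    refine h.congr fun N => ?_
    congr 1
    apply sum_congr rfl
    intro s _
    rw [hIp]
  have htwo : ∀ j j', j ≠ j' → Tendsto (fun N : ℕ => (∑ s ∈ range N, Ip d 𝒢 y m (c + 2 ^ L * r * (s + j)) *
      Ip d 𝒢 y m (c + 2 ^ L * r * (s + j'))) / N) atTop (𝓝 (Φ * Φ)) := by
    intro j j' hjj
    have hsame : ∀ (i : Fin m) (a b : ℕ), a ≠ b → Q i * (Q i * b + (S d)^[(i : ℕ)] c) ≠ Q i * (Q i * a + (S d)^[(i : ℕ)] c) := by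
      intro i a b hab h
      have h1 := Nat.eq_of_mul_eq_mul_left (hQ1 i i.2.le).2 h
      have h2 : Q i * b = Q i * a := by omega
      exact hab (Nat.eq_of_mul_eq_mul_left (hQ1 i i.2.le).2 h2).symm
    have h := hIL (Fin m ⊕ Fin m) (Sum.elim (fun i => Q i) (fun i => Q i))
      (Sum.elim (fun i => Q i * j + (S d)^[(i : ℕ)] c) (fun i => Q i * j' + (S d)^[(i : ℕ)] c)) ⟨?_, ?_, ?_⟩
      (Sum.elim (fun i => y i) (fun i => y i))
    · rw [Fintype.prod_sum_type] at h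
      simp only [Sum.elim_inl, Sum.elim_inr] at h
      rw [hΦ'] at h
      refine h.congr fun N => ?_
      congr 1
      apply sum_congr rfl
      intro s _
      rw [Fintype.prod_sum_type]
      simp only [Sum.elim_inl, Sum.elim_inr]
      rw [hIp, hIp]
    · rintro (i | i) <;> exact (hQ1 i i.2.le).2
    · rintro (i | i)
      · have := Si_pos hd (x := c) (by omega) i
        show 1 ≤ Q i * j + (S d)^[(i : ℕ)] c
        omega
      · have := Si_pos hd (x := c) (by omega) i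
        show 1 ≤ Q i * j' + (S d)^[(i : ℕ)] c
        omega
    · rintro (i | i) (i' | i') hii
      · show Q i * (Q i' * j + (S d)^[(i' : ℕ)] c) ≠ Q i' * (Q i * j + (S d)^[(i : ℕ)] c)
        rcases lt_trichotomy (i : ℕ) i' with h1 | h1 | h1
        · exact not_prop hd hc hQ1 hQ3 h1 i'.2.le j j
        · exact absurd (congrArg Sum.inl (Fin.ext h1)) hii
        · exact (not_prop hd hc hQ1 hQ3 h1 i.2.le j j).symm
      · show Q i * (Q i' * j' + (S d)^[(i' : ℕ)] c) ≠ Q i' * (Q i * j + (S d)^[(i : ℕ)] c)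
        rcases lt_trichotomy (i : ℕ) i' with h1 | h1 | h1
        · exact not_prop hd hc hQ1 hQ3 h1 i'.2.le j j'
        · have h2 : i = i' := Fin.ext h1
          subst h2
          exact hsame i j j' hjj
        · exact (not_prop hd hc hQ1 hQ3 h1 i.2.le j' j).symm
      · show Q i * (Q i' * j + (S d)^[(i' : ℕ)] c) ≠ Q i' * (Q i * j' + (S d)^[(i : ℕ)] c)
        rcases lt_trichotomy (i : ℕ) i' with h1 | h1 | h1
        · exact not_prop hd hc hQ1 hQ3 h1 i'.2.le j' j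
        · have h2 : i = i' := Fin.ext h1
          subst h2
          exact hsame i j' j hjj.symm
        · exact (not_prop hd hc hQ1 hQ3 h1 i.2.le j j').symm
      · show Q i * (Q i' * j' + (S d)^[(i' : ℕ)] c) ≠ Q i' * (Q i * j' + (S d)^[(i : ℕ)] c)
        rcases lt_trichotomy (i : ℕ) i' with h1 | h1 | h1
        · exact not_prop hd hc hQ1 hQ3 h1 i'.2.le j' j'
        · exact absurd (congrArg Sum.inr (Fin.ext h1)) hii
        · exact (not_prop hd hc hQ1 hQ3 h1 i.2.le j' j').symm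
  have hpair : ∀ j j', j ≠ j' → Tendsto (fun N : ℕ => (∑ s ∈ range N, F (s + j) * F (s + j')) / N) atTop (𝓝 0) := by
    intro j j' hjj
    have h1 := (((htwo j j' hjj).sub ((hone j).const_mul Φ)).sub ((hone j').const_mul Φ)).add
      ((tendsto_const_nhds (x := Φ * Φ)))
    have e0 : Φ * Φ - Φ * Φ - Φ * Φ + Φ * Φ = 0 := by ring
    rw [e0] at h1
    refine Tendsto.congr' ?_ h1
    filter_upwards [eventually_ge_atTop 1] with N hN
    have hNr : (N : ℝ) ≠ 0 := by exact_mod_cast (by omega : N ≠ 0)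
    have e1 : ∑ s ∈ range N, F (s + j) * F (s + j') = ∑ s ∈ range N, Ip d 𝒢 y m (c + 2 ^ L * r * (s + j)) *
      Ip d 𝒢 y m (c + 2 ^ L * r * (s + j')) - Φ * ∑ s ∈ range N, Ip d 𝒢 y m (c + 2 ^ L * r * (s + j)) -
      Φ * ∑ s ∈ range N, Ip d 𝒢 y m (c + 2 ^ L * r * (s + j')) + N * (Φ * Φ) := by
      have e2 : (N : ℝ) * (Φ * Φ) = ∑ s ∈ range N, Φ * Φ := by rw [sum_const, card_range, nsmul_eq_mul]
      rw [e2, mul_sum, mul_sum, ← sum_sub_distrib, ← sum_sub_distrib, ← sum_add_distrib]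
      apply sum_congr rfl
      intro s _
      rw [hF]
      simp only [psi]
      ring
    rw [e1]
    field_simp
  -- the sum of the squares
  have hev : ∀ᶠ X : ℕ in atTop, ∀ p ∈ (range H ×ˢ range H).filter (fun p => p.1 ≠ p.2),
      |∑ s ∈ range X, F (s + p.1) * F (s + p.2)| ≤ δ ^ 2 / 2 * X := by
    rw [Filter.eventually_all_finset]
    intro p hp
    rw [mem_filter] at hp
    have h1 := (hpair p.1 p.2 hp.2).abs
    rw [abs_zero] at h1
    filter_upwards [h1.eventually (gt_mem_nhds (show 0 < δ ^ 2 / 2 by positivity)), eventually_ge_atTop 1] with X hX hX1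
    have hXr : (0 : ℝ) < X := by exact_mod_cast hX1
    rw [abs_div, Nat.abs_cast, div_lt_iff₀ hXr] at hX
    exact hX.le
  have hH0 : (0 : ℝ) < H := lt_of_lt_of_le (by positivity) hH
  filter_upwards [hev] with X hX
  have hXr : (0 : ℝ) ≤ X := Nat.cast_nonneg _
  have hFb : ∀ s, |F s| ≤ 1 := fun s => psi_le hφ y m _
  have e1 : ∑ s ∈ range X, (∑ j ∈ range H, F (s + j)) ^ 2 ≤ (δ * H) ^ 2 * X := by
    have e2 : ∑ s ∈ range X, (∑ j ∈ range H, F (s + j)) ^ 2 = ∑ p ∈ range H ×ˢ range H, ∑ s ∈ range X, F (s + p.1) * F (s + p.2) := by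
      rw [sum_comm]
      apply sum_congr rfl
      intro s _
      rw [sq, sum_mul_sum, sum_product]
    rw [e2, ← sum_filter_add_sum_filter_not (range H ×ˢ range H) (fun p => p.1 ≠ p.2)]
    have e3 : ∑ p ∈ (range H ×ˢ range H).filter (fun p => p.1 ≠ p.2), ∑ s ∈ range X, F (s + p.1) * F (s + p.2) ≤
        (H : ℝ) * H * (δ ^ 2 / 2 * X) := by
      refine (sum_le_sum fun p hp => (le_abs_self _).trans (hX p hp)).trans ?_
      rw [sum_const, nsmul_eq_mul]
      apply mul_le_mul_of_nonneg_right _ (by positivity)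
      have := card_filter_le (range H ×ˢ range H) (fun p => p.1 ≠ p.2)
      rw [card_product, card_range] at this
      exact_mod_cast this
    have e4 : ∑ p ∈ (range H ×ˢ range H).filter (fun p => ¬ p.1 ≠ p.2), ∑ s ∈ range X, F (s + p.1) * F (s + p.2) ≤ H * X := by
      have e5 : (range H ×ˢ range H).filter (fun p => ¬ p.1 ≠ p.2) = (range H).image (fun j => (j, j)) := by
        ext ⟨j, j'⟩
        rw [mem_filter, mem_product, mem_range, mem_range, mem_image]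
        simp only [ne_eq, not_not, Prod.mk.injEq]
        constructor
        · rintro ⟨⟨h1, _⟩, rfl⟩
          exact ⟨j, mem_range.2 h1, rfl, rfl⟩
        · rintro ⟨k, hk, rfl, rfl⟩
          exact ⟨⟨mem_range.1 hk, mem_range.1 hk⟩, rfl⟩
      rw [e5, sum_image (fun a _ b _ h => (Prod.mk.inj h).1)]
      refine (sum_le_sum (g := fun _ => (X : ℝ)) fun j _ => ?_).trans ?_
      · refine (sum_le_sum (g := fun _ => (1 : ℝ)) fun s _ => ?_).trans ?_
        · have := hFb (s + j)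
          simp only
          rw [← abs_mul_abs_self]
          nlinarith [abs_nonneg (F (s + j))]
        · rw [sum_const, card_range, nsmul_eq_mul, mul_one]
      · rw [sum_const, card_range, nsmul_eq_mul]
    refine (add_le_add e3 e4).trans ?_
    rw [div_le_iff₀ (by positivity)] at hH
    have e6 : (H : ℝ) * 2 ≤ H * (H * δ ^ 2) := mul_le_mul_of_nonneg_left hH hH0.le
    have e7 : (H : ℝ) * H * (δ ^ 2 / 2 * X) + H * X ≤ (δ * H) ^ 2 * X := by
      have : (H : ℝ) * H * (δ ^ 2 / 2) + H ≤ (δ * H) ^ 2 := by nlinarith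
      calc (H : ℝ) * H * (δ ^ 2 / 2 * X) + H * X = ((H : ℝ) * H * (δ ^ 2 / 2) + H) * X := by ring
        _ ≤ (δ * H) ^ 2 * X := mul_le_mul_of_nonneg_right this hXr
    exact e7
  have e8 : (∑ s ∈ range X, |∑ j ∈ range H, F (s + j)|) ^ 2 ≤ (δ * H * X) ^ 2 := by
    refine (sq_sum_le_card_mul_sum_sq).trans ?_
    rw [card_range]
    simp only [sq_abs]
    calc (X : ℝ) * ∑ s ∈ range X, (∑ j ∈ range H, F (s + j)) ^ 2 ≤ X * ((δ * H) ^ 2 * X) := mul_le_mul_of_nonneg_left e1 hXr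
      _ = _ := by ring
  exact le_of_sq_le_sq e8 (by positivity)

/-- the function on the odd integers -/
noncomputable def g0 (d : ℤ) (𝒢 : κ → Set ℕ) (φ : κ → ℝ) (y : ℕ → κ) (m x : ℕ) : ℝ := if x % 2 = 1 then psi d 𝒢 φ y m x else 0

lemma g0_le (hφ : ∀ k, 0 ≤ φ k ∧ φ k ≤ 1) (y : ℕ → κ) (m x : ℕ) : |g0 d 𝒢 φ y m x| ≤ 1 := by
  unfold g0
  split_ifs
  · exact psi_le hφ y m x
  · simp

theorem loc (hd : d = 1 ∨ d = -1) (hIL : IL 𝒢 φ) (hφ : ∀ k, 0 ≤ φ k ∧ φ k ≤ 1) (y : ℕ → κ) (m : ℕ) {δ : ℝ} (hδ : 0 < δ) :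
    ∃ L : ℕ, ∀ r : ℕ, 1 ≤ r → ∃ H₁ : ℕ, ∀ H : ℕ, H₁ ≤ H → ∀ᶠ X : ℕ in atTop,
      ∑ x ∈ Icc 1 X, |∑ j ∈ range H, g0 d 𝒢 φ y m (x + 2 ^ L * r * j)| ≤ δ * H * X := by
  classical
  -- the choice of `L`
  obtain ⟨L, hL1, hL⟩ : ∃ L : ℕ, 1 ≤ L ∧ (bad d m L : ℝ) / 2 ^ L ≤ δ / 8 := by
    have h1 : Tendsto (fun L : ℕ => (3 : ℝ) ^ m * (3 / 4) ^ L) atTop (𝓝 0) := by
      have := (tendsto_pow_atTop_nhds_zero_of_lt_one (show (0 : ℝ) ≤ 3 / 4 by norm_num) (by norm_num)).const_mul ((3 : ℝ) ^ m)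
      simpa using this
    obtain ⟨L, h2, h3⟩ := ((h1.eventually (gt_mem_nhds (show 0 < δ / 8 by positivity))).and (eventually_ge_atTop 1)).exists
    refine ⟨L, h3, ?_⟩
    refine le_trans ?_ h2.le
    rw [div_le_iff₀ (by positivity)]
    refine (bad_le hd m L).trans (le_of_eq ?_)
    rw [mul_assoc, ← mul_pow]
    norm_num
  refine ⟨L, fun r hr => ?_⟩
  set q : ℕ := 2 ^ L * r with hq
  have hq1 : 1 ≤ q := Nat.mul_pos (by positivity) hr
  have hq2 : 2 ∣ q := Dvd.dvd.mul_right (dvd_pow_self 2 (by omega)) r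
  have hqr : (0 : ℝ) < q := by exact_mod_cast hq1
  obtain ⟨H₁, hH₁⟩ := exists_nat_ge (2 / (δ / 4) ^ 2)
  refine ⟨H₁, fun H hH => ?_⟩
  have hHr : 2 / (δ / 4) ^ 2 ≤ (H : ℝ) := hH₁.trans (by exact_mod_cast hH)
  have hev : ∀ᶠ X : ℕ in atTop, ∀ c ∈ (range q).filter (fun c => c % 2 = 1 ∧ Gd d m L c),
      ∑ s ∈ range X, |∑ j ∈ range H, psi d 𝒢 φ y m (c + q * (s + j))| ≤ δ / 4 * H * X := by
    rw [Filter.eventually_all_finset]
    intro c hc
    rw [mem_filter] at hc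
    exact cls hd hIL hφ y hc.2.1 hr hc.2.2 (by positivity) hHr
  obtain ⟨X₁, hX₁⟩ := eventually_atTop.1 hev
  -- the number of the bad classes
  have hbad : ((((range q).filter (fun c => c % 2 = 1 ∧ ¬ Gd d m L c)).card : ℕ) : ℝ) ≤ q * (δ / 8) := by
    have h1 : ((range q).filter (fun c => c % 2 = 1 ∧ ¬ Gd d m L c)).card ≤ bad d m L * r := by
      unfold bad
      rw [← card_range r, ← card_product]
      apply card_le_card_of_injOn (fun c => (c % 2 ^ L, c / 2 ^ L))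
      · intro c hc
        rw [coe_filter, Set.mem_ofPred_eq, mem_range] at hc
        obtain ⟨h2, h3, h4⟩ := hc
        rw [coe_product, Set.mem_prod, coe_filter, Set.mem_ofPred_eq, mem_range, coe_range, Set.mem_Iio]
        have hodd : c % 2 ^ L % 2 = 1 := by
          rw [Nat.mod_mod_of_dvd _ (dvd_pow_self 2 (by omega))]
          exact h3
        refine ⟨⟨Nat.mod_lt _ (by positivity), hodd, fun h5 => h4 ?_⟩, ?_⟩
        · have h6 := Gd_per hd m L (c % 2 ^ L) (c / 2 ^ L) hodd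
          rw [Nat.mod_add_div] at h6
          exact h6.2 h5
        · rw [Nat.div_lt_iff_lt_mul (by positivity), mul_comm]
          exact h2
      · intro a _ b _ hab
        rw [Prod.mk.injEq] at hab
        rw [← Nat.mod_add_div a (2 ^ L), ← Nat.mod_add_div b (2 ^ L), hab.1, hab.2]
    have h2 : (bad d m L : ℝ) ≤ δ / 8 * 2 ^ L := by
      rwa [div_le_iff₀ (by positivity)] at hL
    calc ((((range q).filter (fun c => c % 2 = 1 ∧ ¬ Gd d m L c)).card : ℕ) : ℝ) ≤ ((bad d m L * r : ℕ) : ℝ) := by exact_mod_cast h1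
      _ = bad d m L * r := by push_cast; rfl
      _ ≤ (δ / 8 * 2 ^ L) * r := mul_le_mul_of_nonneg_right h2 (Nat.cast_nonneg _)
      _ = q * (δ / 8) := by rw [hq]; push_cast; ring
  filter_upwards [eventually_ge_atTop (max q (q * X₁))] with X hX
  have hXq : q ≤ X := (le_max_left _ _).trans hX
  have hX1 : X₁ ≤ X / q + 1 := by
    have : X₁ ≤ X / q := by
      rw [Nat.le_div_iff_mul_le hq1, mul_comm]
      exact (le_max_right _ _).trans hX
    omega
  set Z : ℕ := X / q + 1 with hZ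
  -- decomposition into classes
  have hdec : ∑ x ∈ Icc 1 X, |∑ j ∈ range H, g0 d 𝒢 φ y m (x + q * j)| ≤
      ∑ c ∈ range q, ∑ s ∈ range Z, |∑ j ∈ range H, g0 d 𝒢 φ y m (c + q * (s + j))| := by
    set F : ℕ × ℕ → ℝ := fun p => |∑ j ∈ range H, g0 d 𝒢 φ y m (p.1 + q * (p.2 + j))| with hF
    have e1 : ∑ x ∈ Icc 1 X, |∑ j ∈ range H, g0 d 𝒢 φ y m (x + q * j)| = ∑ x ∈ Icc 1 X, F (x % q, x / q) := by
      apply sum_congr rfl
      intro x _
      rw [hF]
      simp only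
      congr 1
      apply sum_congr rfl
      intro j _
      congr 1
      conv_lhs => rw [← Nat.mod_add_div x q]
      ring
    rw [e1, ← sum_image (s := Icc 1 X) (g := fun x => (x % q, x / q)) (f := F), ← sum_product']
    · apply sum_le_sum_of_subset_of_nonneg
      · intro p hp
        rw [mem_image] at hp
        obtain ⟨x, hx, rfl⟩ := hp
        rw [mem_Icc] at hx
        rw [mem_product, mem_range, mem_range, hZ, Nat.lt_succ_iff]
        exact ⟨Nat.mod_lt _ hq1, Nat.div_le_div_right hx.2⟩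
      · intro _ _ _
        exact abs_nonneg _
    · intro a _ b _ hab
      simp only [Prod.mk.injEq] at hab
      rw [← Nat.mod_add_div a q, ← Nat.mod_add_div b q, hab.1, hab.2]
  refine hdec.trans ?_
  have hpar : ∀ c k : ℕ, (c + q * k) % 2 = c % 2 := by
    intro c k
    obtain ⟨t, ht⟩ := hq2
    rw [ht, mul_assoc]
    omega
  have hcls : ∀ c ∈ range q, ∑ s ∈ range Z, |∑ j ∈ range H, g0 d 𝒢 φ y m (c + q * (s + j))| ≤
      δ / 4 * H * Z + (if c % 2 = 1 ∧ ¬ Gd d m L c then (H : ℝ) * Z else 0) := by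
    intro c hc
    by_cases h1 : c % 2 = 1
    · by_cases h2 : Gd d m L c
      · rw [if_neg (fun h => h.2 h2), add_zero]
        have h3 := hX₁ Z hX1 c (mem_filter.2 ⟨hc, h1, h2⟩)
        refine le_trans (le_of_eq ?_) h3
        apply sum_congr rfl
        intro s _
        congr 1
        apply sum_congr rfl
        intro j _
        unfold g0
        rw [hpar, if_pos h1]
      · rw [if_pos ⟨h1, h2⟩]
        have h3 : ∑ s ∈ range Z, |∑ j ∈ range H, g0 d 𝒢 φ y m (c + q * (s + j))| ≤ H * Z := by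
          refine (sum_le_sum (g := fun _ => (H : ℝ)) fun s _ => ?_).trans ?_
          · refine (abs_sum_le_sum_abs _ _).trans ((sum_le_sum fun j _ => g0_le hφ y m _).trans ?_)
            rw [sum_const, card_range, nsmul_eq_mul, mul_one]
          · rw [sum_const, card_range, nsmul_eq_mul, mul_comm]
        have h4 : (0 : ℝ) ≤ δ / 4 * H * Z := by positivity
        linarith
    · rw [if_neg (fun h => h1 h.1), add_zero]
      have h3 : ∑ s ∈ range Z, |∑ j ∈ range H, g0 d 𝒢 φ y m (c + q * (s + j))| = 0 := by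
        apply sum_eq_zero
        intro s _
        rw [abs_eq_zero]
        apply sum_eq_zero
        intro j _
        unfold g0
        rw [hpar, if_neg h1]
      rw [h3]
      positivity
  refine (sum_le_sum hcls).trans ?_
  rw [sum_add_distrib, sum_const, card_range, nsmul_eq_mul, ← sum_filter, sum_const, nsmul_eq_mul]
  have hZX : (q : ℝ) * Z ≤ 2 * X := by
    have h1 : q * (X / q) ≤ X := Nat.mul_div_le X q
    have h2 : q * Z ≤ 2 * X := by
      rw [hZ, mul_add, mul_one]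
      omega
    exact_mod_cast h2
  have hH0 : (0 : ℝ) ≤ H := Nat.cast_nonneg _
  have hZ0 : (0 : ℝ) ≤ Z := Nat.cast_nonneg _
  have h5 := mul_le_mul_of_nonneg_right hbad (show (0 : ℝ) ≤ H * Z by positivity)
  calc (q : ℝ) * (δ / 4 * H * Z) + (((range q).filter (fun c => c % 2 = 1 ∧ ¬ Gd d m L c)).card : ℝ) * (H * Z)
      ≤ q * (δ / 4 * H * Z) + q * (δ / 8) * (H * Z) := add_le_add le_rfl h5
    _ = (3 / 8 * δ * H) * (q * Z) := by ring
    _ ≤ (3 / 8 * δ * H) * (2 * X) := mul_le_mul_of_nonneg_left hZX (by positivity)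
    _ ≤ δ * H * X := by
        have : 0 ≤ δ * H * X := by positivity
        nlinarith

end Pool.Agent.Helper65.TR
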