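import Pool.Agent.Helper65.TR.Loc

set_option autoImplicit false

/-! Sums along the Syracuse orbits of almost all odd integers. -/

namespace Pool.Agent.Helper65.TR

open Finset Filter Topology
open Pool.Agent.Helper65.LT (Slow var_shift ncard_le_add)

variable {d : ℤ} {κ : Type} {𝒢 : κ → Set ℕ} {φ : κ → ℝ}

/-- the indicator function of a residue class -/
noncomputable def cl (M ρ x : ℕ) : ℝ := if x % M = ρ then 1 else 0

lemma cl_le (M ρ x : ℕ) : |cl M ρ x| ≤ 1 := by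
  unfold cl
  split_ifs <;> simp

lemma cl_shift {M q : ℕ} (h : M ∣ q) (ρ x j : ℕ) : cl M ρ (x + q * j) = cl M ρ x := by
  obtain ⟨t, rfl⟩ := h
  unfold cl
  rw [mul_assoc, Nat.add_mul_mod_self_left]

/-- the function on the odd integers with weights -/
noncomputable def gw (d : ℤ) (𝒢 : κ → Set ℕ) (φ : κ → ℝ) (y : ℕ → κ) (m M ρ : ℕ) (v : ℕ → ℝ) (x : ℕ) : ℝ :=
  v x * cl M ρ x * g0 d 𝒢 φ y m x

lemma gw_le (hφ : ∀ k, 0 ≤ φ k ∧ φ k ≤ 1) (y : ℕ → κ) (m M ρ : ℕ) {v : ℕ → ℝ} (hv : ∀ x, |v x| ≤ 1) (x : ℕ) :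
    |gw d 𝒢 φ y m M ρ v x| ≤ 1 := by
  unfold gw
  rw [abs_mul, abs_mul]
  exact mul_le_one₀ (mul_le_one₀ (hv x) (abs_nonneg _) (cl_le M ρ x)) (abs_nonneg _) (g0_le hφ y m x)

theorem locw (hd : d = 1 ∨ d = -1) (hIL : IL 𝒢 φ) (hφ : ∀ k, 0 ≤ φ k ∧ φ k ≤ 1) (y : ℕ → κ) (m : ℕ) {M : ℕ} (hM : 1 ≤ M) (ρ : ℕ)
    {v : ℕ → ℝ} (hv : ∀ x, |v x| ≤ 1) (hs : Slow (fun x => (v x : ℂ))) {δ : ℝ} (hδ : 0 < δ) :
    ∃ L : ℕ, ∀ r : ℕ, 1 ≤ r → ∃ H₁ : ℕ, ∀ H : ℕ, H₁ ≤ H → ∀ᶠ X : ℕ in atTop,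
      ∑ x ∈ Icc 1 X, |∑ j ∈ range H, gw d 𝒢 φ y m M ρ v (x + 2 ^ L * (M * r) * j)| ≤ δ * H * X := by
  obtain ⟨L, hL⟩ := loc hd hIL hφ y m (δ := δ / 2) (by positivity)
  refine ⟨L, fun r hr => ?_⟩
  obtain ⟨H₁, hH₁⟩ := hL (M * r) (Nat.mul_pos hM hr)
  refine ⟨max H₁ 1, fun H hH => ?_⟩
  have hH1 : 1 ≤ H := (le_max_right _ _).trans hH
  have hHr : (0 : ℝ) < H := by exact_mod_cast hH1
  set q : ℕ := 2 ^ L * (M * r) with hq
  have hq1 : 1 ≤ q := Nat.mul_pos (by positivity) (Nat.mul_pos hM hr)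
  have hqr : (0 : ℝ) < q := by exact_mod_cast hq1
  have hMq : M ∣ q := ⟨2 ^ L * r, by rw [hq]; ring⟩
  obtain ⟨X₂, hX₂⟩ := hs (δ / (4 * q * H)) (by positivity)
  filter_upwards [hH₁ H ((le_max_left _ _).trans hH), eventually_ge_atTop (X₂ + q * H)] with X hX hX2
  have h1 : ∀ x ∈ Icc 1 X, |∑ j ∈ range H, gw d 𝒢 φ y m M ρ v (x + q * j)| ≤
      |∑ j ∈ range H, g0 d 𝒢 φ y m (x + q * j)| + ∑ j ∈ range H, ‖((v (x + q * j) : ℝ) : ℂ) - ((v x : ℝ) : ℂ)‖ := by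
    intro x _
    have e : ∑ j ∈ range H, gw d 𝒢 φ y m M ρ v (x + q * j) = cl M ρ x * (v x * ∑ j ∈ range H, g0 d 𝒢 φ y m (x + q * j) +
        ∑ j ∈ range H, (v (x + q * j) - v x) * g0 d 𝒢 φ y m (x + q * j)) := by
      rw [mul_sum, ← sum_add_distrib, mul_sum]
      apply sum_congr rfl
      intro j _
      unfold gw
      rw [cl_shift hMq]
      ring
    rw [e, abs_mul]
    refine (mul_le_of_le_one_left (abs_nonneg _) (cl_le M ρ x)).trans ?_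
    refine (abs_add_le _ _).trans (add_le_add ?_ ?_)
    · rw [abs_mul]
      exact mul_le_of_le_one_left (abs_nonneg _) (hv x)
    · refine (abs_sum_le_sum_abs _ _).trans (sum_le_sum fun j _ => ?_)
      rw [abs_mul, ← Complex.ofReal_sub, Complex.norm_real, Real.norm_eq_abs]
      exact mul_le_of_le_one_right (abs_nonneg _) (g0_le hφ y m _)
  refine (sum_le_sum h1).trans ?_
  rw [sum_add_distrib]
  have h3 : ∑ x ∈ Icc 1 X, ∑ j ∈ range H, ‖((v (x + q * j) : ℝ) : ℂ) - ((v x : ℝ) : ℂ)‖ ≤ δ / 2 * H * X := by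
    rw [sum_comm]
    have h4 : ∀ j ∈ range H, ∑ x ∈ Icc 1 X, ‖((v (x + q * j) : ℝ) : ℂ) - ((v x : ℝ) : ℂ)‖ ≤
        ((q * H : ℕ) : ℝ) * (δ / (4 * q * H) * (2 * X)) := by
      intro j hj
      rw [mem_range] at hj
      refine (var_shift (fun x => (v x : ℂ)) X (q * j) (q * H) (Nat.mul_le_mul_left q hj.le)).trans ?_
      apply mul_le_mul_of_nonneg_left _ (Nat.cast_nonneg _)
      refine (hX₂ (X + q * H) (by omega)).trans ?_
      apply mul_le_mul_of_nonneg_left _ (by positivity)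
      have : ((X + q * H : ℕ) : ℝ) ≤ ((2 * X : ℕ) : ℝ) := by exact_mod_cast (by omega : X + q * H ≤ 2 * X)
      refine this.trans_eq ?_
      push_cast; ring
    refine (sum_le_sum h4).trans (le_of_eq ?_)
    rw [sum_const, card_range, nsmul_eq_mul]
    push_cast
    field_simp
    ring
  nlinarith

/-- the sums over the odd terms of the trajectories of almost all integers -/
theorem mainU (hd : d = 1 ∨ d = -1) (hIL : IL 𝒢 φ) (hφ : ∀ k, 0 ≤ φ k ∧ φ k ≤ 1) (y : ℕ → κ) (m : ℕ) {M : ℕ} (hM : 1 ≤ M) (ρ : ℕ)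
    {v : ℕ → ℝ} (hv : ∀ x, |v x| ≤ 1) (hs : Slow (fun x => (v x : ℂ))) {ε : ℝ} (hε : 0 < ε) :
    ∃ N₀ : ℕ, ∀ N ≥ N₀,
      (Set.ncard {n : ℕ | 1 ≤ n ∧ n ≤ N ∧ ∃ t : ℕ, (t : ℝ) ≤ 2 / Real.log (4 / 3) * Real.log n ∧ ε * Real.log n <
        |∑ k ∈ range t, gw d 𝒢 φ y m M ρ v ((U d)^[k] n)|} : ℝ) ≤ ε * N := by
  obtain ⟨m₀, δ, hδ, htr⟩ := transfer hd hε
  obtain ⟨L, hL⟩ := locw hd hIL hφ y m hM ρ hv hs hδ
  obtain ⟨H₁, hH₁⟩ := hL (3 ^ m₀) (Nat.one_le_pow _ _ (by norm_num))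
  obtain ⟨X₀, hX₀⟩ := eventually_atTop.1 (hH₁ (max H₁ 1) (le_max_left _ _))
  obtain ⟨N₀, hN₀⟩ := htr (2 ^ L * (M * 3 ^ m₀)) (max H₁ 1)
    (Nat.mul_pos (by positivity) (Nat.mul_pos hM (by positivity))) ⟨2 ^ L * M, by ring⟩ (le_max_right _ _) X₀
  exact ⟨N₀, fun N hN => hN₀ N hN (fun _ => gw d 𝒢 φ y m M ρ v) (fun _ x => gw_le hφ y m M ρ hv x) (fun _ X hX => hX₀ X hX)⟩

/-- parity -/
noncomputable def par (x : ℕ) : ℝ := (if x % 2 = 1 then 1 else 0) - 1 / 2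

lemma par_le (x : ℕ) : |par x| ≤ 1 := by
  unfold par
  split_ifs <;> rw [abs_le] <;> constructor <;> norm_num

lemma par_sum {q : ℕ} (hq : q % 2 = 1) (x H : ℕ) : |∑ j ∈ range H, par (x + q * j)| ≤ 1 / 2 := by
  have h1 : ∀ j, par (x + q * j) = (-1) ^ j * par x := by
    intro j
    induction j with
    | zero => simp
    | succ j ih =>
      rw [pow_succ, mul_comm ((-1 : ℝ) ^ j), mul_assoc, ← ih]
      unfold par
      have h2 : (x + q * (j + 1)) % 2 = 1 ↔ ¬ (x + q * j) % 2 = 1 := by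
        rw [mul_add, mul_one]
        omega
      by_cases h3 : (x + q * j) % 2 = 1
      · rw [if_pos h3, if_neg (fun h => h2.1 h h3)]
        norm_num
      · rw [if_neg h3, if_pos (h2.2 h3)]
        norm_num
  have h4 : |par x| = 1 / 2 := by
    unfold par
    split_ifs <;> norm_num
  simp only [h1]
  rw [← sum_mul, abs_mul, h4]
  have h5 : |∑ j ∈ range H, (-1 : ℝ) ^ j| ≤ 1 := by
    have : ∀ H : ℕ, (∑ j ∈ range H, (-1 : ℝ) ^ j = 0 ∨ ∑ j ∈ range H, (-1 : ℝ) ^ j = 1) := by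
      intro H
      rw [neg_one_geom_sum]
      split_ifs
      · exact Or.inl rfl
      · exact Or.inr rfl
    rcases this H with h | h <;> rw [h] <;> norm_num
  linarith

theorem parity (hd : d = 1 ∨ d = -1) {ε : ℝ} (hε : 0 < ε) :
    ∃ N₀ : ℕ, ∀ N ≥ N₀,
      (Set.ncard {n : ℕ | 1 ≤ n ∧ n ≤ N ∧ ∃ t : ℕ, (t : ℝ) ≤ 2 / Real.log (4 / 3) * Real.log n ∧ ε * Real.log n <
        |∑ k ∈ range t, par ((U d)^[k] n)|} : ℝ) ≤ ε * N := by
  obtain ⟨m₀, δ, hδ, htr⟩ := transfer hd hε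
  obtain ⟨H₁, hH₁⟩ := exists_nat_ge (1 / δ)
  obtain ⟨N₀, hN₀⟩ := htr (3 ^ m₀) (max H₁ 1) (Nat.one_le_pow _ _ (by norm_num)) (dvd_refl _) (le_max_right _ _) 0
  refine ⟨N₀, fun N hN => hN₀ N hN (fun _ => par) (fun _ x => par_le x) (fun _ X _ => ?_)⟩
  have h1 : ∀ x ∈ Icc 1 X, |∑ j ∈ range (max H₁ 1), par (x + 3 ^ m₀ * j)| ≤ 1 := fun x _ =>
    (par_sum (Nat.odd_iff.1 (Odd.pow (by decide))) x _).trans (by norm_num)
  refine (sum_le_sum h1).trans ?_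
  rw [sum_const, Nat.card_Icc, Nat.add_sub_cancel, nsmul_eq_mul, mul_one]
  have h2 : 1 / δ ≤ ((max H₁ 1 : ℕ) : ℝ) := hH₁.trans (by exact_mod_cast le_max_left _ _)
  rw [div_le_iff₀ hδ] at h2
  have h3 : (0 : ℝ) ≤ X := Nat.cast_nonneg _
  nlinarith

/-! ### Syracuse time -/

lemma U_even {x : ℕ} (h : x % 2 = 0) : U d x = x / 2 := by
  unfold U Pool.Agent.H499R2.CO.Tz
  rw [if_pos (by omega)]
  omega

lemma U_odd (hd : d = 1 ∨ d = -1) {x : ℕ} (h : x % 2 = 1) : 2 * U d x = num d x := by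
  have h1 := U_cast hd x
  unfold Pool.Agent.H499R2.CO.Tz at h1
  rw [if_neg (by omega)] at h1
  have h2 := num_cast hd (x := x) (by omega)
  rcases hd with rfl | rfl <;> omega

lemma U_steps (hd : d = 1 ∨ d = -1) {x : ℕ} (h : x % 2 = 1) {j : ℕ} (hj1 : 1 ≤ j) (hj : j ≤ ex d x) :
    (U d)^[j] x = 2 ^ (ex d x - j) * S d x := by
  induction j with
  | zero => omega
  | succ j ih =>
    rcases Nat.eq_zero_or_pos j with rfl | hj0
    · rw [zero_add, Function.iterate_one]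
      have h1 := U_odd hd h
      have h2 := num_eq hd (x := x) (by omega)
      obtain ⟨e, he⟩ : ∃ e, ex d x = e + 1 := ⟨ex d x - 1, by omega⟩
      rw [h2, he, pow_succ] at h1
      rw [he, Nat.add_sub_cancel]
      have h3 : 2 ^ e * 2 * S d x = 2 * (2 ^ e * S d x) := by ring
      omega
    · rw [Function.iterate_succ_apply', ih hj0 (by omega)]
      obtain ⟨e, he⟩ : ∃ e, ex d x - j = e + 1 := ⟨ex d x - j - 1, by omega⟩
      have h1 : ex d x - (j + 1) = e := by omega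
      rw [he, h1, pow_succ]
      have h2 : 2 ^ e * 2 * S d x = 2 * (2 ^ e * S d x) := by ring
      rw [h2, U_even (by omega)]
      omega

/-- the time of the `t`-th odd term -/
noncomputable def Bt (d : ℤ) (n t : ℕ) : ℕ := ∑ i ∈ range t, ex d ((S d)^[i] n)

lemma U_Bt (hd : d = 1 ∨ d = -1) {n : ℕ} (h : n % 2 = 1) (t : ℕ) : (U d)^[Bt d n t] n = (S d)^[t] n := by
  induction t with
  | zero => rfl
  | succ t ih =>
    unfold Bt at ih ⊢
    rw [sum_range_succ, add_comm, Function.iterate_add_apply, ih]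
    have h1 := Si_odd hd h t
    have h2 := ex_pos hd h1
    rw [U_steps hd h1 h2 le_rfl, Nat.sub_self, pow_zero, one_mul, ← Function.iterate_succ_apply' (S d)]

lemma sum_odd (hd : d = 1 ∨ d = -1) {n : ℕ} (h : n % 2 = 1) {G : ℕ → ℝ} (hG : ∀ x, x % 2 = 0 → G x = 0) (t : ℕ) :
    ∑ j ∈ range (Bt d n t), G ((U d)^[j] n) = ∑ k ∈ range t, G ((S d)^[k] n) := by
  induction t with
  | zero => rfl
  | succ t ih =>
    have e1 : Bt d n (t + 1) = Bt d n t + ex d ((S d)^[t] n) := by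
      unfold Bt
      rw [sum_range_succ]
    rw [e1, sum_range_add, ih, sum_range_succ]
    congr 1
    have h1 := Si_odd hd h t
    have h2 := ex_pos hd h1
    obtain ⟨e, he⟩ : ∃ e, ex d ((S d)^[t] n) = e + 1 := ⟨ex d ((S d)^[t] n) - 1, by omega⟩
    have h3 : ∀ j, (U d)^[Bt d n t + j] n = (U d)^[j] ((S d)^[t] n) := by
      intro j
      rw [add_comm, Function.iterate_add_apply, U_Bt hd h]
    simp only [h3]
    rw [he, sum_range_succ']
    simp only [Function.iterate_zero, id]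
    have h4 : ∑ j ∈ range e, G ((U d)^[j + 1] ((S d)^[t] n)) = 0 := by
      apply sum_eq_zero
      intro j hj
      rw [mem_range] at hj
      apply hG
      rw [U_steps hd h1 (by omega) (by omega), he]
      obtain ⟨a, ha⟩ : ∃ a, e + 1 - (j + 1) = a + 1 := ⟨e - j - 1, by omega⟩
      rw [ha, pow_succ, mul_comm (2 ^ a) 2, mul_assoc]
      exact Nat.mul_mod_right _ _
    rw [h4, zero_add]

lemma Bt_mono (d : ℤ) (n : ℕ) {s t : ℕ} (h : s ≤ t) : Bt d n s ≤ Bt d n t := by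
  unfold Bt
  exact sum_le_sum_of_subset (range_subset_range.2 h)

/-- from the trajectories to the Syracuse orbits -/
theorem to_syr (hd : d = 1 ∨ d = -1) {n : ℕ} (hn : n % 2 = 1) {G : ℕ → ℝ} (hG : ∀ x, x % 2 = 0 → G x = 0) (hG1 : ∀ x, |G x| ≤ 1)
    {c η : ℝ} (hc : 0 ≤ c) (hlog : 2 ≤ η * Real.log n)
    (h1 : ∀ u : ℕ, (u : ℝ) ≤ 2 * c * Real.log n → |∑ j ∈ range u, G ((U d)^[j] n)| ≤ η * Real.log n)
    (h2 : ∀ u : ℕ, (u : ℝ) ≤ 2 * c * Real.log n → |∑ j ∈ range u, par ((U d)^[j] n)| ≤ η * Real.log n)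
    (t : ℕ) (ht : (t : ℝ) ≤ c * Real.log n) : |∑ k ∈ range t, G ((S d)^[k] n)| ≤ 3 * (η * Real.log n) := by
  have hlog0 : 0 ≤ Real.log n := Real.log_nonneg (by exact_mod_cast (by omega : 1 ≤ n))
  rw [← sum_odd hd hn hG]
  by_cases hB : (Bt d n t : ℝ) ≤ 2 * c * Real.log n
  · have := h1 _ hB
    linarith
  push Not at hB
  obtain ⟨u, hu⟩ : ∃ u : ℕ, u = ⌊2 * c * Real.log n⌋₊ := ⟨_, rfl⟩
  have hu1 : (u : ℝ) ≤ 2 * c * Real.log n := by rw [hu]; exact Nat.floor_le (by positivity)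
  have hu2 : 2 * c * Real.log n < u + 1 := by rw [hu]; exact Nat.lt_floor_add_one _
  have huB : u ≤ Bt d n t := by
    have : (u : ℝ) ≤ Bt d n t := hu1.trans hB.le
    exact_mod_cast this
  rw [← sum_range_add_sum_Ico _ huB]
  refine (abs_add_le _ _).trans ?_
  have e1 := h1 u hu1
  have e2 := h2 u hu1
  -- the number of odd terms
  have e3 : ∀ w : ℕ, ∑ j ∈ range w, par ((U d)^[j] n) = ∑ j ∈ range w, (if (U d)^[j] n % 2 = 1 then (1 : ℝ) else 0) - w / 2 := by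
    intro w
    unfold par
    rw [sum_sub_distrib, sum_const, card_range, nsmul_eq_mul, mul_one_div]
  have e4 : ∑ j ∈ range (Bt d n t), (if (U d)^[j] n % 2 = 1 then (1 : ℝ) else 0) = t := by
    rw [sum_odd hd hn (G := fun x => if x % 2 = 1 then (1 : ℝ) else 0) (fun x hx => if_neg (by omega)) t]
    rw [sum_congr rfl (g := fun _ => (1 : ℝ)) fun k _ => if_pos (Si_odd hd hn k), sum_const, card_range, nsmul_eq_mul, mul_one]
  have e5 : |∑ j ∈ Ico u (Bt d n t), G ((U d)^[j] n)| ≤ t - ∑ j ∈ range u, (if (U d)^[j] n % 2 = 1 then (1 : ℝ) else 0) := by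
    rw [← e4, ← sum_range_add_sum_Ico _ huB, add_sub_cancel_left]
    refine (abs_sum_le_sum_abs _ _).trans (sum_le_sum fun j _ => ?_)
    split_ifs with h
    · exact hG1 _
    · rw [hG _ (by omega), abs_zero]
  rw [e3] at e2
  rw [abs_le] at e2
  linarith

end Pool.Agent.Helper65.TR
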