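import Pool.Agent.Helper65.TR.Fin
import Pool.Agent.Results.MP_005f52_nt.EntranceLaw

set_option autoImplicit false

/-! The Syracuse map on the negative odd integers: densities, basins, orbits down to the entrance into a cycle. -/

namespace Pool.Agent.Helper65.TR

open Filter Topology
open Pool.Agent.Helper65.LT (ncard_le_add)
open Pool.Agent.Results.MP_005f52_nt.EntranceLaw (Syr IsCycle Enters HasDensity C₁ C₂ C₃ bound syr_eq)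

lemma syr_neg {n : ℕ} (hn : n % 2 = 1) (k : ℕ) : Syr^[k] (-(n : ℤ)) = -(((S (-1))^[k] n : ℕ) : ℤ) := by
  induction k with
  | zero => rfl
  | succ k ih =>
    rw [Function.iterate_succ_apply', Function.iterate_succ_apply', ih]
    have h1 := Si_odd (Or.inr rfl : (-1 : ℤ) = 1 ∨ (-1 : ℤ) = -1) hn k
    set x := (S (-1))^[k] n with hx
    have h2 : 1 ≤ x := by omega
    apply syr_eq (ex (-1) x)
    · have h3 := num_cast (Or.inr rfl : (-1 : ℤ) = 1 ∨ (-1 : ℤ) = -1) h2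
      have h4 := num_eq (Or.inr rfl : (-1 : ℤ) = 1 ∨ (-1 : ℤ) = -1) h2
      rw [h4] at h3
      push_cast at h3
      linear_combination h3
    · have h5 := S_odd (Or.inr rfl : (-1 : ℤ) = 1 ∨ (-1 : ℤ) = -1) h2
      omega

lemma neg_count (P : ℤ → Prop) (X : ℕ) : {N : ℤ | -(X : ℤ) ≤ N ∧ N < 0 ∧ Odd N ∧ P N}.ncard =
    {n : ℕ | 1 ≤ n ∧ n ≤ X ∧ (n % 2 = 1 ∧ P (-(n : ℤ)))}.ncard := by
  have e : {N : ℤ | -(X : ℤ) ≤ N ∧ N < 0 ∧ Odd N ∧ P N}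
      = (fun n : ℕ => -(n : ℤ)) '' {n : ℕ | 1 ≤ n ∧ n ≤ X ∧ (n % 2 = 1 ∧ P (-(n : ℤ)))} := by
    ext N
    constructor
    · rintro ⟨g1, g2, g3, g4⟩
      have g3' := Int.odd_iff.1 g3
      refine ⟨N.natAbs, ⟨by omega, by omega, by omega, ?_⟩, ?_⟩
      · have : -((N.natAbs : ℕ) : ℤ) = N := by omega
        rw [this]; exact g4
      · show -((N.natAbs : ℕ) : ℤ) = N
        omega
    · rintro ⟨n, ⟨g1, g2, g3, g4⟩, rfl⟩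
      refine ⟨?_, ?_, ?_, g4⟩
      · show -(X : ℤ) ≤ -(n : ℤ)
        omega
      · show -(n : ℤ) < 0
        omega
      · rw [Int.odd_iff]
        show -(n : ℤ) % 2 = 1
        omega
  rw [e, Set.ncard_image_of_injective _ (fun a b hab => by
    have : -(a : ℤ) = -(b : ℤ) := hab
    omega)]

theorem neg_inter {P R : ℤ → Prop} {δ : ℝ} (hP : HasDensity P δ)
    (h : Rare (fun n => n % 2 = 1 ∧ P (-(n : ℤ)) ∧ ¬ R (-(n : ℤ))))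
    (hRP : ∀ N, N < 0 → Odd N → R N → P N) : HasDensity R δ := by
  unfold HasDensity at hP ⊢
  simp only [neg_count] at hP ⊢
  rw [Metric.tendsto_atTop] at hP ⊢
  intro η hη
  obtain ⟨N₁, hN₁⟩ := h (η / 8) (by positivity)
  obtain ⟨N₂, hN₂⟩ := hP (η / 2) (by positivity)
  refine ⟨max (max N₁ N₂) 1, fun N hN => ?_⟩
  have hN1 : (0 : ℝ) < N := by exact_mod_cast (by omega : 0 < N)
  have h1 := hN₁ N (by omega)
  have h2 := hN₂ N (by omega)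
  rw [Real.dist_eq, abs_lt] at h2 ⊢
  have h3 : ({n : ℕ | 1 ≤ n ∧ n ≤ N ∧ (n % 2 = 1 ∧ R (-(n : ℤ)))}.ncard : ℝ) ≤
      {n : ℕ | 1 ≤ n ∧ n ≤ N ∧ (n % 2 = 1 ∧ P (-(n : ℤ)))}.ncard := by
    have : {n : ℕ | 1 ≤ n ∧ n ≤ N ∧ (n % 2 = 1 ∧ R (-(n : ℤ)))} ⊆ {n : ℕ | 1 ≤ n ∧ n ≤ N ∧ (n % 2 = 1 ∧ P (-(n : ℤ)))} := by
      rintro n ⟨h1, h2, h3, h4⟩
      refine ⟨h1, h2, h3, hRP _ (by omega) ?_ h4⟩
      rw [Int.odd_iff]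
      omega
    exact_mod_cast Set.ncard_le_ncard this (fin_set _ N)
  have h4 : ({n : ℕ | 1 ≤ n ∧ n ≤ N ∧ (n % 2 = 1 ∧ P (-(n : ℤ)))}.ncard : ℝ) ≤
      {n : ℕ | 1 ≤ n ∧ n ≤ N ∧ (n % 2 = 1 ∧ R (-(n : ℤ)))}.ncard +
      {n : ℕ | 1 ≤ n ∧ n ≤ N ∧ (n % 2 = 1 ∧ P (-(n : ℤ)) ∧ ¬ R (-(n : ℤ)))}.ncard :=
    ncard_le_add fun m _ _ hm => by
      by_cases hR : R (-(m : ℤ))
      · exact Or.inl ⟨hm.1, hR⟩
      · exact Or.inr ⟨hm.1, hm.2, hR⟩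
  have h5 : 2 / (N : ℝ) * ({n : ℕ | 1 ≤ n ∧ n ≤ N ∧ (n % 2 = 1 ∧ R (-(n : ℤ)))}.ncard : ℝ) ≤
      2 / (N : ℝ) * {n : ℕ | 1 ≤ n ∧ n ≤ N ∧ (n % 2 = 1 ∧ P (-(n : ℤ)))}.ncard := mul_le_mul_of_nonneg_left h3 (by positivity)
  have h6 : 2 / (N : ℝ) * ({n : ℕ | 1 ≤ n ∧ n ≤ N ∧ (n % 2 = 1 ∧ P (-(n : ℤ)))}.ncard : ℝ) ≤
      2 / (N : ℝ) * {n : ℕ | 1 ≤ n ∧ n ≤ N ∧ (n % 2 = 1 ∧ R (-(n : ℤ)))}.ncard + η / 4 := by
    have h7 : 2 / (N : ℝ) * ({n : ℕ | 1 ≤ n ∧ n ≤ N ∧ (n % 2 = 1 ∧ P (-(n : ℤ)))}.ncard : ℝ) ≤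
        2 / (N : ℝ) * ({n : ℕ | 1 ≤ n ∧ n ≤ N ∧ (n % 2 = 1 ∧ R (-(n : ℤ)))}.ncard + η / 8 * N) :=
      mul_le_mul_of_nonneg_left (by linarith) (by positivity)
    refine h7.trans (le_of_eq ?_)
    field_simp
    ring
  constructor <;> linarith

theorem neg_one : HasDensity (fun _ => True) 1 := by
  unfold HasDensity
  simp only [neg_count]
  have h1 : ∀ N : ℕ, ({m : ℕ | 1 ≤ m ∧ m ≤ N ∧ (m % 2 = 1 ∧ True)}.ncard : ℝ) = ((N + 1) / 2 : ℕ) := by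
    intro N
    have h2 : {m : ℕ | 1 ≤ m ∧ m ≤ N ∧ (m % 2 = 1 ∧ True)} =
        ((Finset.range ((N + 1) / 2)).image (fun k => 2 * k + 1) : Finset ℕ) := by
      ext m
      rw [Finset.coe_image, Set.mem_image]
      constructor
      · rintro ⟨_, h3, h4, _⟩
        exact ⟨m / 2, by rw [Finset.coe_range, Set.mem_Iio]; omega, by show 2 * (m / 2) + 1 = m; omega⟩
      · rintro ⟨k, hk, rfl⟩
        rw [Finset.coe_range, Set.mem_Iio] at hk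
        exact ⟨by omega, by omega, by omega, trivial⟩
    rw [h2, Set.ncard_coe_finset, Finset.card_image_of_injective _ (fun a b (hab : 2 * a + 1 = 2 * b + 1) => by omega), Finset.card_range]
  simp only [h1]
  rw [Metric.tendsto_atTop]
  intro ε hε
  obtain ⟨N₀, hN₀⟩ := exists_nat_gt (2 / ε)
  refine ⟨max N₀ 1, fun N hN => ?_⟩
  have hN1 : (0 : ℝ) < N := by exact_mod_cast (by omega : 0 < N)
  have h2 : 2 / ε < N := hN₀.trans_le (by exact_mod_cast (le_max_left _ _).trans hN)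
  rw [div_lt_iff₀ hε] at h2
  have h3 : N ≤ 2 * ((N + 1) / 2) ∧ 2 * ((N + 1) / 2) ≤ N + 1 := by omega
  have h4 : (N : ℝ) ≤ 2 * (((N + 1) / 2 : ℕ) : ℝ) := by exact_mod_cast h3.1
  have h5 : 2 * (((N + 1) / 2 : ℕ) : ℝ) ≤ N + 1 := by exact_mod_cast h3.2
  rw [Real.dist_eq, abs_lt]
  have h6 : 2 / (N : ℝ) * (((N + 1) / 2 : ℕ) : ℝ) - 1 = (2 * (((N + 1) / 2 : ℕ) : ℝ) - N) / N := by
    field_simp
  rw [h6]
  constructor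
  · have : 0 ≤ (2 * (((N + 1) / 2 : ℕ) : ℝ) - N) / N := div_nonneg (by linarith) hN1.le
    linarith
  · rw [div_lt_iff₀ hN1]
    linarith

/-- a density statement as an upper bound for the number of the exceptions -/
lemma dens_up {P : ℤ → Prop} {δ η : ℝ} (hP : HasDensity P δ) (hη : 0 < η) : ∃ N₀ : ℕ, ∀ N ≥ N₀,
    ({n : ℕ | 1 ≤ n ∧ n ≤ N ∧ (n % 2 = 1 ∧ P (-(n : ℤ)))}.ncard : ℝ) ≤ (δ / 2 + η) * N ∧
    (δ / 2 - η) * N ≤ {n : ℕ | 1 ≤ n ∧ n ≤ N ∧ (n % 2 = 1 ∧ P (-(n : ℤ)))}.ncard := by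
  unfold HasDensity at hP
  simp only [neg_count] at hP
  rw [Metric.tendsto_atTop] at hP
  obtain ⟨N₀, hN₀⟩ := hP η hη
  refine ⟨max N₀ 1, fun N hN => ?_⟩
  have hN1 : (0 : ℝ) < N := by exact_mod_cast (by omega : 0 < N)
  have h1 := hN₀ N (by omega)
  rw [Real.dist_eq, abs_lt, div_mul_eq_mul_div] at h1
  have h2 : 2 * ({n : ℕ | 1 ≤ n ∧ n ≤ N ∧ (n % 2 = 1 ∧ P (-(n : ℤ)))}.ncard : ℝ) / N < δ + η := by linarith
  have h3 : δ - η < 2 * ({n : ℕ | 1 ≤ n ∧ n ≤ N ∧ (n % 2 = 1 ∧ P (-(n : ℤ)))}.ncard : ℝ) / N := by linarith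
  rw [div_lt_iff₀ hN1] at h2
  rw [lt_div_iff₀ hN1] at h3
  constructor <;> nlinarith

lemma bound_near {K ε : ℝ} (hε : 0 < ε) : ∀ᶠ n : ℕ in atTop,
    |bound K (-(n : ℤ)) - 1 / Real.log (4 / 3) * Real.log n| ≤ ε * Real.log n := by
  have hl : 0 < Real.log (4 / 3) := Real.log_pos (by norm_num)
  have hlog : Tendsto (fun n : ℕ => Real.log n) atTop atTop := Real.tendsto_log_atTop.comp tendsto_natCast_atTop_atTop
  set D : ℝ := (K * Real.log 2) ^ 2 * (2 / Real.log (4 / 3) ^ 3) / ε ^ 2 with hD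
  filter_upwards [hlog.eventually_ge_atTop (max D 1)] with n hn
  have hn1 : 1 ≤ Real.log n := (le_max_right _ _).trans hn
  have hn2 : D ≤ Real.log n := (le_max_left _ _).trans hn
  unfold bound
  have e1 : |((-(n : ℤ) : ℤ) : ℝ)| = n := by
    push_cast
    rw [abs_neg, abs_of_nonneg (Nat.cast_nonneg n)]
  rw [e1, add_sub_cancel_left]
  apply abs_le_of_sq_le_sq _ (by positivity)
  have e2 : (K * (Real.log 2 * Real.sqrt (2 * Real.log n / Real.log (4 / 3) ^ 3))) ^ 2 =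
      (K * Real.log 2) ^ 2 * (2 / Real.log (4 / 3) ^ 3) * Real.log n := by
    rw [show (K * (Real.log 2 * Real.sqrt (2 * Real.log n / Real.log (4 / 3) ^ 3))) ^ 2 =
      (K * Real.log 2) ^ 2 * (Real.sqrt (2 * Real.log n / Real.log (4 / 3) ^ 3)) ^ 2 by ring,
      Real.sq_sqrt (by positivity)]
    ring
  rw [e2]
  have e3 : (K * Real.log 2) ^ 2 * (2 / Real.log (4 / 3) ^ 3) = D * ε ^ 2 := by
    rw [hD]
    field_simp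
  rw [e3]
  nlinarith [mul_le_mul_of_nonneg_right hn2 (by positivity : 0 ≤ ε ^ 2 * Real.log n)]

open Pool.Agent.Results.MP_005f52_nt.EntranceLaw (Phi) in
/-- almost all integers of a basin enter the cycle at the expected time -/
theorem enter_rare {Z : Finset ℤ} {δ : ℝ}
    (h1 : HasDensity (fun N => ∃ k : ℕ, Syr^[k] N ∈ Z) δ)
    (h2 : ∀ x : ℝ, HasDensity (fun N => ∃ k : ℕ, Enters Z k N ∧ (k : ℝ) ≤ bound x N) (δ * Phi x)) {ε : ℝ} (hε : 0 < ε) :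
    Rare (fun n => n % 2 = 1 ∧ (∃ k : ℕ, Syr^[k] (-(n : ℤ)) ∈ Z) ∧ ¬ ∃ h : ℕ, Enters Z h (-(n : ℤ)) ∧
      |(h : ℝ) - 1 / Real.log (4 / 3) * Real.log n| ≤ ε * Real.log n) := by
  intro η hη
  have hP1 : Tendsto (fun x => δ * Phi x) atTop (𝓝 (δ * 1)) :=
    (ProbabilityTheory.tendsto_cdf_atTop _).const_mul δ
  have hP0 : Tendsto (fun x => δ * Phi x) atBot (𝓝 (δ * 0)) :=
    (ProbabilityTheory.tendsto_cdf_atBot _).const_mul δ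
  rw [mul_one] at hP1
  rw [mul_zero] at hP0
  obtain ⟨K, hK⟩ := (hP1.eventually (lt_mem_nhds (by linarith : δ - η / 4 < δ))).exists
  obtain ⟨J, hJ⟩ := (hP0.eventually (gt_mem_nhds (by linarith : (0 : ℝ) < η / 4))).exists
  obtain ⟨N₁, hN₁⟩ := dens_up h1 (η := η / 8) (by positivity)
  obtain ⟨N₂, hN₂⟩ := dens_up (h2 K) (η := η / 8) (by positivity)
  obtain ⟨N₃, hN₃⟩ := dens_up (h2 J) (η := η / 8) (by positivity)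
  have h5 : Rare (fun n : ℕ => ¬ (|bound K (-(n : ℤ)) - 1 / Real.log (4 / 3) * Real.log n| ≤ ε * Real.log n ∧
      |bound J (-(n : ℤ)) - 1 / Real.log (4 / 3) * Real.log n| ≤ ε * Real.log n)) := by
    apply rare_fin
    filter_upwards [bound_near (K := K) hε, bound_near (K := J) hε] with n a b
    exact not_not.2 ⟨a, b⟩
  obtain ⟨N₄, hN₄⟩ := h5 (η / 8) (by positivity)
  refine ⟨max (max N₁ N₂) (max (max N₃ N₄) 1), fun N hN => ?_⟩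
  have hN1 : (0 : ℝ) < N := by exact_mod_cast (by omega : 0 < N)
  have a1 := (hN₁ N (by omega)).1
  have a2 := (hN₂ N (by omega)).2
  have a3 := (hN₃ N (by omega)).1
  have a4 := hN₄ N (by omega)
  have b1 : ({n : ℕ | 1 ≤ n ∧ n ≤ N ∧ (n % 2 = 1 ∧ (∃ k : ℕ, Syr^[k] (-(n : ℤ)) ∈ Z) ∧
      ¬ ∃ k : ℕ, Enters Z k (-(n : ℤ)) ∧ (k : ℝ) ≤ bound K (-(n : ℤ)))}.ncard : ℝ) +
      {n : ℕ | 1 ≤ n ∧ n ≤ N ∧ (n % 2 = 1 ∧ ∃ k : ℕ, Enters Z k (-(n : ℤ)) ∧ (k : ℝ) ≤ bound K (-(n : ℤ)))}.ncard ≤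
      {n : ℕ | 1 ≤ n ∧ n ≤ N ∧ (n % 2 = 1 ∧ ∃ k : ℕ, Syr^[k] (-(n : ℤ)) ∈ Z)}.ncard := by
    have : {n : ℕ | 1 ≤ n ∧ n ≤ N ∧ (n % 2 = 1 ∧ (∃ k : ℕ, Syr^[k] (-(n : ℤ)) ∈ Z) ∧
      ¬ ∃ k : ℕ, Enters Z k (-(n : ℤ)) ∧ (k : ℝ) ≤ bound K (-(n : ℤ)))}.ncard +
      {n : ℕ | 1 ≤ n ∧ n ≤ N ∧ (n % 2 = 1 ∧ ∃ k : ℕ, Enters Z k (-(n : ℤ)) ∧ (k : ℝ) ≤ bound K (-(n : ℤ)))}.ncard ≤
      {n : ℕ | 1 ≤ n ∧ n ≤ N ∧ (n % 2 = 1 ∧ ∃ k : ℕ, Syr^[k] (-(n : ℤ)) ∈ Z)}.ncard := by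
      rw [← Set.ncard_union_eq _ (fin_set _ N) (fin_set _ N)]
      · apply Set.ncard_le_ncard _ (fin_set _ N)
        rintro m (⟨c1, c2, c3, c4, _⟩ | ⟨c1, c2, c3, k, c4, _⟩)
        · exact ⟨c1, c2, c3, c4⟩
        · exact ⟨c1, c2, c3, k, c4.1⟩
      · rw [Set.disjoint_left]
        rintro m ⟨_, _, _, _, c4⟩ ⟨_, _, _, d4⟩
        exact c4 d4
    exact_mod_cast this
  -- covering
  have b2 : ({n : ℕ | 1 ≤ n ∧ n ≤ N ∧ (n % 2 = 1 ∧ (∃ k : ℕ, Syr^[k] (-(n : ℤ)) ∈ Z) ∧ ¬ ∃ h : ℕ, Enters Z h (-(n : ℤ)) ∧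
      |(h : ℝ) - 1 / Real.log (4 / 3) * Real.log n| ≤ ε * Real.log n)}.ncard : ℝ) ≤
      {n : ℕ | 1 ≤ n ∧ n ≤ N ∧ (n % 2 = 1 ∧ (∃ k : ℕ, Syr^[k] (-(n : ℤ)) ∈ Z) ∧
        ¬ ∃ k : ℕ, Enters Z k (-(n : ℤ)) ∧ (k : ℝ) ≤ bound K (-(n : ℤ)))}.ncard +
      {n : ℕ | 1 ≤ n ∧ n ≤ N ∧ ((n % 2 = 1 ∧ ∃ k : ℕ, Enters Z k (-(n : ℤ)) ∧ (k : ℝ) ≤ bound J (-(n : ℤ))) ∨
        ¬ (|bound K (-(n : ℤ)) - 1 / Real.log (4 / 3) * Real.log n| ≤ ε * Real.log n ∧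
      |bound J (-(n : ℤ)) - 1 / Real.log (4 / 3) * Real.log n| ≤ ε * Real.log n))}.ncard :=
    ncard_le_add fun m _ _ hm => by
      obtain ⟨c1, c2, c3⟩ := hm
      by_contra hcon
      push Not at hcon
      obtain ⟨d1, d2, d3⟩ := hcon
      obtain ⟨k, e1, e2⟩ := d1 c1 c2
      apply c3
      refine ⟨k, e1, ?_⟩
      have e3 := d2 c1 k e1
      obtain ⟨d4, d5⟩ := d3
      rw [abs_le] at d4 d5 ⊢
      constructor <;> linarith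
  have b3 : ({n : ℕ | 1 ≤ n ∧ n ≤ N ∧ ((n % 2 = 1 ∧ ∃ k : ℕ, Enters Z k (-(n : ℤ)) ∧ (k : ℝ) ≤ bound J (-(n : ℤ))) ∨
        ¬ (|bound K (-(n : ℤ)) - 1 / Real.log (4 / 3) * Real.log n| ≤ ε * Real.log n ∧
      |bound J (-(n : ℤ)) - 1 / Real.log (4 / 3) * Real.log n| ≤ ε * Real.log n))}.ncard : ℝ) ≤
      {n : ℕ | 1 ≤ n ∧ n ≤ N ∧ (n % 2 = 1 ∧ ∃ k : ℕ, Enters Z k (-(n : ℤ)) ∧ (k : ℝ) ≤ bound J (-(n : ℤ)))}.ncard +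
      {n : ℕ | 1 ≤ n ∧ n ≤ N ∧ ¬ (|bound K (-(n : ℤ)) - 1 / Real.log (4 / 3) * Real.log n| ≤ ε * Real.log n ∧
      |bound J (-(n : ℤ)) - 1 / Real.log (4 / 3) * Real.log n| ≤ ε * Real.log n)}.ncard :=
    ncard_le_add fun m _ _ hm => hm
  nlinarith

/-- almost all integers of a basin, the complete orbit -/
theorem complete_rare {Z : Finset ℤ} {G : ℕ → ℝ} (hG1 : ∀ x, |G x| ≤ 1)
    (hG : ∀ ε : ℝ, 0 < ε → Rare (fun n => n % 2 = 1 ∧ ¬ ∀ t : ℕ, (t : ℝ) ≤ 1 / Real.log (4 / 3) * Real.log n →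
      |∑ k ∈ Finset.range t, G ((S (-1))^[k] n)| ≤ ε * Real.log n))
    (h1 : ∀ ε : ℝ, 0 < ε → Rare (fun n => n % 2 = 1 ∧ (∃ k : ℕ, Syr^[k] (-(n : ℤ)) ∈ Z) ∧ ¬ ∃ h : ℕ, Enters Z h (-(n : ℤ)) ∧
      |(h : ℝ) - 1 / Real.log (4 / 3) * Real.log n| ≤ ε * Real.log n)) {ε : ℝ} (hε : 0 < ε) :
    Rare (fun n => n % 2 = 1 ∧ (∃ k : ℕ, Syr^[k] (-(n : ℤ)) ∈ Z) ∧ ¬ ∃ h : ℕ, Enters Z h (-(n : ℤ)) ∧
      |(h : ℝ) - 1 / Real.log (4 / 3) * Real.log n| ≤ ε * Real.log n ∧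
      |∑ k ∈ Finset.range h, G ((S (-1))^[k] n)| ≤ ε * h) := by
  set c : ℝ := 1 / Real.log (4 / 3) with hc
  have hl : 0 < Real.log (4 / 3) := Real.log_pos (by norm_num)
  have hc2 : 2 ≤ c := by
    rw [hc, le_div_iff₀ hl]
    have : Real.log (4 / 3) ≤ 4 / 3 - 1 := Real.log_le_sub_one_of_pos (by norm_num)
    linarith
  set η : ℝ := min (ε / 3) 1 with hη
  have hη0 : 0 < η := by positivity
  have hη1 : η ≤ 1 := min_le_right _ _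
  have hη2 : η ≤ ε / 3 := min_le_left _ _
  have h3 := h1 η hη0
  have h4 := hG η hη0
  have h5 : Rare (fun n : ℕ => ¬ (2 ≤ n ∧ 1 ≤ η * Real.log n)) := by
    apply rare_fin
    have h6 : Tendsto (fun n : ℕ => η * Real.log n) atTop atTop :=
      (Real.tendsto_log_atTop.comp tendsto_natCast_atTop_atTop).const_mul_atTop hη0
    filter_upwards [h6.eventually_ge_atTop 1, eventually_ge_atTop 2] with n hn1 hn2
    exact not_not.2 ⟨hn2, hn1⟩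
  refine ((h3.or h4).or h5).mono ?_
  rintro n _ ⟨hn, hp, hR⟩
  by_contra hcon
  push Not at hcon
  obtain ⟨⟨c1, c2⟩, c3, c4⟩ := hcon
  obtain ⟨τ, hτ, hτ2⟩ := c1 hn hp
  have c2' := c2 hn
  apply hR
  have hL : 0 ≤ Real.log n := Real.log_nonneg (by exact_mod_cast (by omega : 1 ≤ n))
  have hlip : ∀ s t : ℕ, s ≤ t → |∑ k ∈ Finset.range t, G ((S (-1))^[k] n) -
      ∑ k ∈ Finset.range s, G ((S (-1))^[k] n)| ≤ (t : ℝ) - s := fun s t hst =>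
    sum_lip (fun k => hG1 _) s t hst
  have hne := near_end (D := fun t => ∑ k ∈ Finset.range t, G ((S (-1))^[k] n))
    (c := c) (L := Real.log n) (η := η) (τ := τ) hlip (by linarith) hL c2' hτ2 c4
  refine ⟨τ, hτ, hτ2.trans (mul_le_mul_of_nonneg_right (by linarith) hL), hne.trans ?_⟩
  have h7 : Real.log n ≤ τ := by
    rw [abs_le] at hτ2
    nlinarith
  have h8 : 3 * (η * Real.log n) ≤ 3 * (ε / 3 * τ) := by
    apply mul_le_mul_of_nonneg_left _ (by norm_num)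
    exact mul_le_mul hη2 h7 hL (by positivity)
  linarith

/-- the starting law of the entrance times -/
theorem basins : ∃ δ : Finset ℤ → ℝ,
    (∀ Z : Finset ℤ, IsCycle Z → 0 < δ Z ∧ HasDensity (fun N => ∃ k : ℕ, Syr^[k] N ∈ Z) (δ Z) ∧
      ∀ ε : ℝ, 0 < ε → Rare (fun n => n % 2 = 1 ∧ (∃ k : ℕ, Syr^[k] (-(n : ℤ)) ∈ Z) ∧ ¬ ∃ h : ℕ, Enters Z h (-(n : ℤ)) ∧
      |(h : ℝ) - 1 / Real.log (4 / 3) * Real.log n| ≤ ε * Real.log n)) ∧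
    (IsCycle C₁ ∧ IsCycle C₂ ∧ IsCycle C₃ ∧
        HasDensity (fun N => ∃ k : ℕ, Syr^[k] N ∈ C₁ ∪ C₂ ∪ C₃) (δ C₁ + δ C₂ + δ C₃) ∧
        (δ C₁ + δ C₂ + δ C₃ = 1 ↔ ∀ N, N < 0 → Odd N → ∃ k : ℕ, Syr^[k] N ∈ C₁ ∪ C₂ ∪ C₃)) := by
  obtain ⟨_, δ, h1, h2, _⟩ := Pool.Agent.Results.MP_005f52_nt.EntranceLaw.result
  refine ⟨δ, fun Z hZ => ?_, h2⟩
  obtain ⟨a1, a2, a3⟩ := h1 Z hZ
  refine ⟨a1, a2, fun ε hε => enter_rare a2 (fun x => ?_) hε⟩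
  have := (a3 1 0 le_rfl).2 x
  have e0 : δ Z * Pool.Agent.Results.MP_005f52_nt.EntranceLaw.Phi x / ((1 : ℕ) : ℝ) =
      δ Z * Pool.Agent.Results.MP_005f52_nt.EntranceLaw.Phi x := by rw [Nat.cast_one, div_one]
  rw [e0] at this
  refine this.congr fun X => ?_
  have e : {N : ℤ | -(X : ℤ) ≤ N ∧ N < 0 ∧ Odd N ∧ ∃ k : ℕ, Enters Z k N ∧ (k : ℝ) ≤ bound x N ∧ (k : ℤ) ≡ 0 [ZMOD ((1 : ℕ) : ℤ)]} =
      {N : ℤ | -(X : ℤ) ≤ N ∧ N < 0 ∧ Odd N ∧ ∃ k : ℕ, Enters Z k N ∧ (k : ℝ) ≤ bound x N} := by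
    ext N
    constructor
    · rintro ⟨b1, b2, b3, k, b4, b5, _⟩
      exact ⟨b1, b2, b3, k, b4, b5⟩
    · rintro ⟨b1, b2, b3, k, b4, b5⟩
      refine ⟨b1, b2, b3, k, b4, b5, ?_⟩
      rw [Nat.cast_one]
      exact Int.modEq_one
  rw [e]

end Pool.Agent.Helper65.TR
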