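import Pool.Agent.Helper65.TR.LZ
import Pool.Agent.R344.SP.MD

set_option autoImplicit false

/-! Squarefree terms of the Syracuse orbits. -/

namespace Pool.Agent.Helper65.TR

open Finset Filter Topology
open Pool.Agent.R344.SP (nsq nsq_abs nsq_per nsq_mean cover_sum mn Pn Pn_tendsto mult_count sum_blocks)

/-- the primes from five on, below `n` -/
def P5 (n : ℕ) : Finset ℕ := (Pn n).erase 2

lemma mem_P5 {n p : ℕ} : p ∈ P5 n ↔ p.Prime ∧ p < n ∧ p ≠ 2 ∧ p ≠ 3 := by
  unfold P5 Pn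
  rw [mem_erase, mem_erase, Nat.mem_primesBelow]
  tauto

theorem P5_tendsto : Tendsto (fun n : ℕ => ∏ p ∈ P5 n, (1 - 1 / (p : ℝ) ^ 2)) atTop (𝓝 (9 / Real.pi ^ 2)) := by
  have h1 := Pn_tendsto.const_mul (4 / 3 : ℝ)
  have e : (4 / 3 : ℝ) * (27 / (4 * Real.pi ^ 2)) = 9 / Real.pi ^ 2 := by
    have := Real.pi_pos
    field_simp
    norm_num
  rw [e] at h1
  refine h1.congr' ?_
  filter_upwards [eventually_gt_atTop 3] with n hn
  have h5 : 2 ∈ Pn n := by
    unfold Pn
    rw [mem_erase, Nat.mem_primesBelow]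
    exact ⟨by norm_num, by omega, by norm_num⟩
  unfold P5
  rw [← mul_prod_erase _ _ h5, ← mul_assoc]
  norm_num

/-- the density of the squarefree integers among the integers prime to six -/
noncomputable def kap : ℝ := 9 / Real.pi ^ 2

lemma kap_pos : 0 ≤ kap := by
  unfold kap
  positivity

lemma kap_le : kap ≤ 1 := by
  unfold kap
  rw [div_le_one (by positivity)]
  nlinarith [Real.pi_gt_three]

open Classical in
/-- the indicator function of the squarefree integers -/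
noncomputable def sqi (x : ℕ) : ℝ := if Squarefree x then 1 else 0

/-- the centred indicator function of the squarefree integers prime to six -/
noncomputable def gs (x : ℕ) : ℝ := if x % 2 = 1 ∧ x % 3 ≠ 0 then sqi x - kap else 0

lemma sqi_01 (x : ℕ) : 0 ≤ sqi x ∧ sqi x ≤ 1 := by
  unfold sqi
  split_ifs <;> norm_num

lemma gs_le (x : ℕ) : |gs x| ≤ 1 := by
  unfold gs
  have h1 := sqi_01 x
  have h2 := kap_pos
  have h3 := kap_le
  split_ifs
  · rw [abs_le]
    constructor <;> linarith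
  · norm_num

lemma gs_even (x : ℕ) (h : x % 2 = 0) : gs x = 0 := by
  unfold gs
  rw [if_neg (by omega)]

/-- divisible by the square of a large prime -/
noncomputable def Er (n x : ℕ) : ℝ := by
  classical
  exact if ∃ p : ℕ, p.Prime ∧ n ≤ p ∧ p ^ 2 ∣ x then 1 else 0

lemma Er_nonneg (n x : ℕ) : 0 ≤ Er n x := by
  unfold Er
  split_ifs <;> norm_num

lemma sqi_near {n x : ℕ} (h2 : x % 2 = 1) (h3 : x % 3 ≠ 0) : |sqi x - nsq (P5 n) x| ≤ Er n x := by
  by_cases hE : ∃ p : ℕ, p.Prime ∧ n ≤ p ∧ p ^ 2 ∣ x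
  · have : Er n x = 1 := by
      unfold Er
      rw [if_pos hE]
    rw [this]
    unfold sqi nsq
    split_ifs <;> simp
  · have : Er n x = 0 := by
      unfold Er
      rw [if_neg hE]
    rw [this]
    push Not at hE
    have h4 : Squarefree x ↔ ∀ p ∈ P5 n, ¬ ((p : ℤ) ^ 2 ∣ (x : ℤ)) := by
      rw [Nat.squarefree_iff_prime_squarefree]
      constructor
      · intro h p hp hd
        apply h p (mem_P5.1 hp).1
        have : ((p ^ 2 : ℕ) : ℤ) ∣ (x : ℤ) := by push_cast; exact hd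
        have := Int.natCast_dvd_natCast.1 this
        rwa [sq] at this
      · intro h p hp hd
        rw [← sq] at hd
        have c2 : p ≠ 2 := by
          rintro rfl
          have : 2 ∣ x := dvd_trans (by norm_num) hd
          omega
        have c3 : p ≠ 3 := by
          rintro rfl
          have : 3 ∣ x := dvd_trans (by norm_num) hd
          omega
        rcases lt_or_ge p n with h5 | h5
        · apply h p (mem_P5.2 ⟨hp, h5, c2, c3⟩)
          exact_mod_cast hd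
        · exact hE p hp h5 hd
    unfold sqi nsq
    by_cases h5 : Squarefree x
    · rw [if_pos h5, if_pos (h4.1 h5)]
      simp
    · rw [if_neg h5, if_neg (fun h => h5 (h4.2 h))]
      simp

lemma Er_sum {n : ℕ} (hn : 2 ≤ n) (Y : ℕ) : ∑ y ∈ Icc 1 Y, Er n y ≤ 2 * Y / (n - 1 : ℕ) := by
  classical
  have hn1 : (0 : ℝ) < ((n - 1 : ℕ) : ℝ) := by exact_mod_cast (by omega : 0 < n - 1)
  have h1 : ∀ y ∈ Icc 1 Y, Er n y ≤ ∑ m ∈ Ioc (n - 1) (max (n - 1) Y), if m ^ 2 ∣ y then (1 : ℝ) else 0 := by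
    intro y hy
    rw [mem_Icc] at hy
    unfold Er
    split_ifs with h
    · obtain ⟨p, hp, hpn, hd⟩ := h
      have h2 := Nat.le_of_dvd (by omega) hd
      have h3 : p ≤ p ^ 2 := Nat.le_self_pow (by norm_num) p
      have hmem : p ∈ Ioc (n - 1) (max (n - 1) Y) := by
        rw [mem_Ioc]
        exact ⟨by omega, le_trans (by omega : p ≤ Y) (le_max_right _ _)⟩
      refine le_trans (le_of_eq ?_) (single_le_sum (f := fun m : ℕ => if m ^ 2 ∣ y then (1 : ℝ) else 0)
        (fun m _ => by split_ifs <;> norm_num) hmem)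
      show (1 : ℝ) = if p ^ 2 ∣ y then (1 : ℝ) else 0
      rw [if_pos hd]
    · exact sum_nonneg fun m _ => by split_ifs <;> norm_num
  have h2 : ∀ m ∈ Ioc (n - 1) (max (n - 1) Y), ∑ y ∈ Icc 1 Y, (if m ^ 2 ∣ y then (1 : ℝ) else 0) ≤ Y * ((m : ℝ) ^ 2)⁻¹ := by
    intro m hm
    rw [mem_Ioc] at hm
    rw [← sum_filter, sum_const, nsmul_eq_mul, mul_one]
    have h3 : ((Icc 1 Y).filter (fun y => m ^ 2 ∣ y)).card ≤ Y / m ^ 2 := by
      have hsub : (Icc 1 Y).filter (fun y => m ^ 2 ∣ y) ⊆ (Icc 1 (Y / m ^ 2)).image (fun i => m ^ 2 * i) := by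
        intro y hy
        rw [mem_filter, mem_Icc] at hy
        obtain ⟨⟨h4, h5⟩, i, rfl⟩ := hy
        rw [mem_image]
        have hm0 : 0 < m ^ 2 := by
          have : 0 < m := by omega
          positivity
        refine ⟨i, mem_Icc.2 ⟨?_, ?_⟩, rfl⟩
        · by_contra hcon
          have : i = 0 := by omega
          subst this
          omega
        · rw [Nat.le_div_iff_mul_le hm0, mul_comm]
          exact h5
      refine (card_le_card hsub).trans (card_image_le.trans ?_)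
      rw [Nat.card_Icc, Nat.add_sub_cancel]
    have h4 : ((Y / m ^ 2 : ℕ) : ℝ) ≤ (Y : ℝ) / ((m ^ 2 : ℕ) : ℝ) := Nat.cast_div_le
    have h5 : (((Icc 1 Y).filter (fun y => m ^ 2 ∣ y)).card : ℝ) ≤ ((Y / m ^ 2 : ℕ) : ℝ) := by exact_mod_cast h3
    rw [← div_eq_mul_inv]
    push_cast at h4
    exact h5.trans h4
  have h3 := sum_Ioc_inv_sq_le_sub (α := ℝ) (k := n - 1) (n := max (n - 1) Y) (by omega) (le_max_left _ _)
  have h4 : (0 : ℝ) ≤ ((max (n - 1) Y : ℕ) : ℝ)⁻¹ := by positivity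
  calc ∑ y ∈ Icc 1 Y, Er n y ≤ ∑ y ∈ Icc 1 Y, ∑ m ∈ Ioc (n - 1) (max (n - 1) Y), (if m ^ 2 ∣ y then (1 : ℝ) else 0) :=
        sum_le_sum h1
    _ ≤ ∑ m ∈ Ioc (n - 1) (max (n - 1) Y), Y * ((m : ℝ) ^ 2)⁻¹ := by
        rw [sum_comm]
        exact sum_le_sum h2
    _ ≤ Y * ((n - 1 : ℕ) : ℝ)⁻¹ := by
        rw [← mul_sum]
        apply mul_le_mul_of_nonneg_left _ (Nat.cast_nonneg _)
        linarith
    _ ≤ 2 * Y / (n - 1 : ℕ) := by
        rw [← div_eq_mul_inv]
        apply div_le_div_of_nonneg_right _ hn1.le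
        have : (0 : ℝ) ≤ Y := Nat.cast_nonneg _
        linarith

/-- the mean of the sieved function over progressions -/
lemma nsq_block (n q : ℕ) (hq : Nat.Coprime q (∏ p ∈ P5 n, p ^ 2)) (b x : ℕ) :
    ∑ k ∈ range ((∏ p ∈ P5 n, p ^ 2) * b), nsq (P5 n) ((x + q * k : ℕ) : ℤ) =
      ((∏ p ∈ P5 n, p ^ 2 : ℕ) : ℝ) * b * ∏ p ∈ P5 n, (1 - 1 / (p : ℝ) ^ 2) := by
  set P : ℕ := ∏ p ∈ P5 n, p ^ 2 with hP
  have hpr : ∀ p ∈ P5 n, p.Prime := fun p hp => (mem_P5.1 hp).1
  have hP1 : 1 ≤ P := by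
    apply Nat.succ_le_of_lt
    apply prod_pos
    intro p hp
    have := (hpr p hp).pos
    positivity
  have hP0 : (P : ℝ) ≠ 0 := by
    have : P ≠ 0 := by omega
    exact_mod_cast this
  have hmean : ∑ i ∈ range P, nsq (P5 n) i = P * ∏ p ∈ P5 n, (1 - 1 / (p : ℝ) ^ 2) := by
    have h1 := nsq_mean (P5 n) hpr
    rw [← hP] at h1
    unfold mn at h1
    rw [div_eq_iff hP0] at h1
    rw [h1, mul_comm]
  have hcov : ∀ y : ℤ, ∑ i ∈ range P, nsq (P5 n) (y + (q : ℤ) * i) = P * ∏ p ∈ P5 n, (1 - 1 / (p : ℝ) ^ 2) := by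
    intro y
    rw [← hmean]
    exact cover_sum hP1 (fun x z => nsq_per (P5 n) x z) (Nat.isCoprime_iff_coprime.2 hq) y
  have h1 := sum_blocks (fun y => nsq (P5 n) (x + q * y)) P b
  have h2 : ∑ k ∈ range (P * b), nsq (P5 n) ((x + q * k : ℕ) : ℤ) = ∑ y ∈ range (P * b), nsq (P5 n) ((x : ℤ) + q * (y : ℤ)) := by
    apply sum_congr rfl
    intro k _
    congr 1
  rw [h2, h1]
  have h3 : ∀ i ∈ range b, ∑ r ∈ range P, nsq (P5 n) ((x : ℤ) + q * ((r : ℤ) + P * i)) = P * ∏ p ∈ P5 n, (1 - 1 / (p : ℝ) ^ 2) := by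
    intro i _
    rw [← hcov ((x : ℤ) + q * (P * i))]
    apply sum_congr rfl
    intro r _
    congr 1
    ring
  rw [sum_congr rfl h3, sum_const, card_range, nsmul_eq_mul]
  ring

theorem gs_LZ : LZ gs := by
  intro j η hη
  set q : ℕ := 2 * 3 ^ (j + 1) with hq
  have hq1 : 1 ≤ q := Nat.succ_le_of_lt (by positivity)
  -- the cutoff
  obtain ⟨n₁, hn₁⟩ := (Metric.tendsto_atTop.1 P5_tendsto) (η / 4) (by positivity)
  obtain ⟨n₂, hn₂⟩ := exists_nat_ge (16 / η + 3)
  set n : ℕ := max n₁ n₂ with hn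
  have hn3 : 16 / η + 3 ≤ (n : ℝ) := hn₂.trans (by exact_mod_cast le_max_right _ _)
  have hn4 : (3 : ℝ) ≤ n := by
    have : 0 ≤ 16 / η := by positivity
    linarith
  have hn5 : 3 ≤ n := by exact_mod_cast hn4
  have hprod := hn₁ n (le_max_left _ _)
  rw [Real.dist_eq] at hprod
  set P : ℕ := ∏ p ∈ P5 n, p ^ 2 with hP
  set κ' : ℝ := ∏ p ∈ P5 n, (1 - 1 / (p : ℝ) ^ 2) with hκ'
  have hpr : ∀ p ∈ P5 n, p.Prime := fun p hp => (mem_P5.1 hp).1
  have hP1 : 1 ≤ P := by
    apply Nat.succ_le_of_lt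
    apply prod_pos
    intro p hp
    have := (hpr p hp).pos
    positivity
  have hcop : Nat.Coprime q P := by
    apply Nat.Coprime.prod_right
    intro p hp
    apply Nat.Coprime.pow_right
    obtain ⟨h1, h2, h3, h4⟩ := mem_P5.1 hp
    rw [hq]
    apply Nat.Coprime.mul_left
    · rw [Nat.coprime_primes Nat.prime_two h1]
      exact h3.symm
    · apply Nat.Coprime.pow_left
      rw [Nat.coprime_primes Nat.prime_three h1]
      exact h4.symm
  have hP0 : (0 : ℝ) < P := by exact_mod_cast hP1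
  obtain ⟨X₀, hX₀⟩ := exists_nat_ge ((q * P : ℕ) : ℝ)
  refine ⟨P, hP1, X₀, fun X hX => ?_⟩
  have hXq : ((q * P : ℕ) : ℝ) ≤ X := hX₀.trans (by exact_mod_cast hX)
  have hXq' : q * P ≤ X := by exact_mod_cast hXq
  have hpt : ∀ x ∈ Icc 1 X, |∑ k ∈ range P, gs (x + q * k)| ≤ η / 4 * P + ∑ k ∈ range P, Er n (x + q * k) := by
    intro x _
    have hE0 : 0 ≤ ∑ k ∈ range P, Er n (x + q * k) := sum_nonneg fun k _ => Er_nonneg _ _
    have hmod2 : ∀ k, (x + q * k) % 2 = x % 2 := by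
      intro k
      rw [hq, show x + 2 * 3 ^ (j + 1) * k = x + 2 * (3 ^ (j + 1) * k) by ring, Nat.add_mul_mod_self_left]
    have hmod3 : ∀ k, (x + q * k) % 3 = x % 3 := by
      intro k
      rw [hq, show x + 2 * 3 ^ (j + 1) * k = x + 3 * (2 * 3 ^ j * k) by ring, Nat.add_mul_mod_self_left]
    by_cases hx : x % 2 = 1 ∧ x % 3 ≠ 0
    · have h1 : ∀ k ∈ range P, gs (x + q * k) = (sqi (x + q * k) - nsq (P5 n) ((x + q * k : ℕ) : ℤ)) +
          (nsq (P5 n) ((x + q * k : ℕ) : ℤ) - kap) := by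
        intro k _
        unfold gs
        rw [if_pos ⟨by rw [hmod2]; exact hx.1, by rw [hmod3]; exact hx.2⟩]
        ring
      rw [sum_congr rfl h1, sum_add_distrib]
      have h2 : |∑ k ∈ range P, (sqi (x + q * k) - nsq (P5 n) ((x + q * k : ℕ) : ℤ))| ≤ ∑ k ∈ range P, Er n (x + q * k) := by
        refine (abs_sum_le_sum_abs _ _).trans (sum_le_sum fun k _ => ?_)
        exact sqi_near (by rw [hmod2]; exact hx.1) (by rw [hmod3]; exact hx.2)
      have h3 : |∑ k ∈ range P, (nsq (P5 n) ((x + q * k : ℕ) : ℤ) - kap)| ≤ η / 4 * P := by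
        have h4 := nsq_block n q hcop 1 x
        rw [← hP, mul_one, Nat.cast_one, mul_one, ← hκ'] at h4
        rw [sum_sub_distrib, h4, sum_const, card_range, nsmul_eq_mul, ← mul_sub, abs_mul, abs_of_pos hP0]
        rw [mul_comm (η / 4)]
        apply mul_le_mul_of_nonneg_left _ hP0.le
        exact hprod.le
      refine (abs_add_le _ _).trans ?_
      linarith
    · have h1 : ∀ k ∈ range P, gs (x + q * k) = 0 := by
        intro k _
        unfold gs
        rw [if_neg]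
        rw [hmod2, hmod3]
        exact hx
      rw [sum_congr rfl h1, sum_const_zero, abs_zero]
      positivity
  have hsum : ∑ x ∈ Icc 1 X, ∑ k ∈ range P, Er n (x + q * k) ≤ P * (4 * X / (n - 1 : ℕ)) := by
    rw [sum_comm]
    have h1 : ∀ k ∈ range P, ∑ x ∈ Icc 1 X, Er n (x + q * k) ≤ 4 * X / (n - 1 : ℕ) := by
      intro k hk
      rw [mem_range] at hk
      have h2 : ∑ x ∈ Icc 1 X, Er n (x + q * k) ≤ ∑ y ∈ Icc 1 (X + q * P), Er n y := by
        rw [← sum_image (f := Er n) (g := fun x => x + q * k) (fun a _ b _ hab => by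
          have : a + q * k = b + q * k := hab
          omega)]
        apply sum_le_sum_of_subset_of_nonneg
        · intro y hy
          rw [mem_image] at hy
          obtain ⟨x, hx, rfl⟩ := hy
          rw [mem_Icc] at hx ⊢
          have : q * k ≤ q * P := Nat.mul_le_mul_left _ hk.le
          constructor <;> omega
        · intro y _ _
          exact Er_nonneg _ _
      have h3 := Er_sum (n := n) (by omega) (X + q * P)
      refine h2.trans (h3.trans ?_)
      apply div_le_div_of_nonneg_right _ (Nat.cast_nonneg _)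
      push_cast at hXq ⊢
      linarith
    refine (sum_le_sum h1).trans (le_of_eq ?_)
    rw [sum_const, card_range, nsmul_eq_mul]
  have hX0 : (0 : ℝ) ≤ X := Nat.cast_nonneg _
  have hfin : 4 * (X : ℝ) / (n - 1 : ℕ) ≤ η / 4 * X := by
    have h1 : ((n - 1 : ℕ) : ℝ) = n - 1 := by
      rw [Nat.cast_sub (by omega : 1 ≤ n)]
      norm_num
    have h2 : 16 / η ≤ ((n - 1 : ℕ) : ℝ) := by
      rw [h1]
      linarith
    have h3 : (0 : ℝ) < ((n - 1 : ℕ) : ℝ) := lt_of_lt_of_le (by positivity) h2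
    rw [div_le_iff₀ hη] at h2
    rw [div_le_iff₀ h3]
    nlinarith
  calc ∑ x ∈ Icc 1 X, |∑ k ∈ range P, gs (x + q * k)|
      ≤ ∑ x ∈ Icc 1 X, (η / 4 * P + ∑ k ∈ range P, Er n (x + q * k)) := sum_le_sum hpt
    _ ≤ X * (η / 4 * P) + P * (4 * X / (n - 1 : ℕ)) := by
        rw [sum_add_distrib, sum_const, Nat.card_Icc, Nat.add_sub_cancel, nsmul_eq_mul]
        linarith
    _ ≤ X * (η / 4 * P) + P * (η / 4 * X) := by
        have := mul_le_mul_of_nonneg_left hfin hP0.le
        linarith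
    _ ≤ η * P * X := by
        have : 0 ≤ η * P * X := by positivity
        nlinarith

end Pool.Agent.Helper65.TR
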