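import Pool.Agent.Helper65.TR.Tr

set_option autoImplicit false

/-! The Syracuse map on residue classes modulo powers of two. -/

namespace Pool.Agent.Helper65.TR

open Finset

/-- `3 x + d` -/
def num (d : ℤ) (x : ℕ) : ℕ := (3 * (x : ℤ) + d).toNat

/-- the exponent of `2` in `3 x + d` -/
def ex (d : ℤ) (x : ℕ) : ℕ := padicValNat 2 (num d x)

/-- the Syracuse map `(3 x + d) / 2 ^ v₂(3 x + d)` -/
def S (d : ℤ) (x : ℕ) : ℕ := num d x / 2 ^ ex d x

variable {d : ℤ}

lemma num_cast (hd : d = 1 ∨ d = -1) {x : ℕ} (hx : 1 ≤ x) : ((num d x : ℕ) : ℤ) = 3 * x + d := by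
  unfold num
  rw [Int.toNat_of_nonneg]
  rcases hd with rfl | rfl <;> omega

lemma num_pos (hd : d = 1 ∨ d = -1) {x : ℕ} (hx : 1 ≤ x) : 2 ≤ num d x := by
  have := num_cast hd hx
  rcases hd with rfl | rfl <;> omega

lemma val_eq {e o n : ℕ} (ho : o % 2 = 1) (h : n = 2 ^ e * o) : padicValNat 2 n = e := by
  have h2 : Fact (Nat.Prime 2) := ⟨Nat.prime_two⟩
  rw [h, padicValNat.mul (by positivity) (by omega), padicValNat.prime_pow, padicValNat.eq_zero_of_not_dvd (by omega), add_zero]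

lemma num_eq (hd : d = 1 ∨ d = -1) {x : ℕ} (hx : 1 ≤ x) : num d x = 2 ^ ex d x * S d x := by
  have h2 : Fact (Nat.Prime 2) := ⟨Nat.prime_two⟩
  unfold S
  rw [Nat.mul_div_cancel']
  exact pow_padicValNat_dvd

lemma S_odd (hd : d = 1 ∨ d = -1) {x : ℕ} (hx : 1 ≤ x) : S d x % 2 = 1 := by
  have h2 : Fact (Nat.Prime 2) := ⟨Nat.prime_two⟩
  have h1 := num_pos hd hx
  have h3 := num_eq hd hx
  by_contra hcon
  have h4 : 2 ∣ S d x := by omega
  obtain ⟨k, hk⟩ := h4
  have h5 : 2 ^ (ex d x + 1) ∣ num d x := ⟨k, by rw [h3, hk]; ring⟩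
  exact pow_succ_padicValNat_not_dvd (by omega) h5

lemma S_pos (hd : d = 1 ∨ d = -1) {x : ℕ} (hx : 1 ≤ x) : 1 ≤ S d x := by
  have := S_odd hd hx
  omega

lemma Si_pos (hd : d = 1 ∨ d = -1) {x : ℕ} (hx : 1 ≤ x) (i : ℕ) : 1 ≤ (S d)^[i] x := by
  induction i with
  | zero => exact hx
  | succ i ih => rw [Function.iterate_succ_apply']; exact S_pos hd ih

lemma Si_odd (hd : d = 1 ∨ d = -1) {x : ℕ} (hx : x % 2 = 1) (i : ℕ) : (S d)^[i] x % 2 = 1 := by
  cases i with
  | zero => exact hx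
  | succ i => rw [Function.iterate_succ_apply']; exact S_odd hd (Si_pos hd (by omega) i)

lemma ex_unique (hd : d = 1 ∨ d = -1) {x e o : ℕ} (hx : 1 ≤ x) (ho : o % 2 = 1) (h : num d x = 2 ^ e * o) : ex d x = e ∧ S d x = o := by
  have h1 : ex d x = e := val_eq ho h
  refine ⟨h1, ?_⟩
  have h2 := num_eq hd hx
  rw [h1, h] at h2
  exact (Nat.eq_of_mul_eq_mul_left (by positivity) h2).symm

lemma ex_pos (hd : d = 1 ∨ d = -1) {x : ℕ} (hx : x % 2 = 1) : 1 ≤ ex d x := by
  by_contra hcon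
  have h0 : ex d x = 0 := by omega
  have h1 := num_eq hd (x := x) (by omega)
  have h2 := S_odd hd (x := x) (by omega)
  have h3 := num_cast hd (x := x) (by omega)
  rw [h0, pow_zero, one_mul] at h1
  rcases hd with rfl | rfl <;> omega

/-- shifts by multiples of a high power of `2` -/
lemma shift (hd : d = 1 ∨ d = -1) {c L r s : ℕ} (hc : 1 ≤ c) (he : ex d c < L) :
    ex d (c + 2 ^ L * r * s) = ex d c ∧ S d (c + 2 ^ L * r * s) = S d c + 2 ^ (L - ex d c) * (3 * r) * s := by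
  obtain ⟨k, hk⟩ : ∃ k, L - ex d c = k + 1 := ⟨L - ex d c - 1, by omega⟩
  have hL : 2 ^ L = 2 ^ ex d c * 2 ^ (L - ex d c) := by
    rw [← pow_add]
    congr 1
    omega
  apply ex_unique hd (by omega)
  · rw [hk, pow_succ]
    have := S_odd hd hc
    have h2 : (2 ^ k * 2 * (3 * r) * s) % 2 = 0 := by
      rw [show 2 ^ k * 2 * (3 * r) * s = 2 * (2 ^ k * (3 * r) * s) by ring]
      exact Nat.mul_mod_right _ _
    omega
  · have h1 := num_cast hd (x := c + 2 ^ L * r * s) (by omega)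
    have h2 := num_cast hd hc
    have h3 := num_eq hd hc
    have h4 : ((num d (c + 2 ^ L * r * s) : ℕ) : ℤ) = ((2 ^ ex d c * (S d c + 2 ^ (L - ex d c) * (3 * r) * s) : ℕ) : ℤ) := by
      rw [h1]
      push_cast
      have h5 : ((2 : ℤ) ^ ex d c * (S d c : ℤ)) = 3 * c + d := by
        rw [← h2, h3]
        push_cast
        rfl
      have h6 : (2 : ℤ) ^ L = 2 ^ ex d c * 2 ^ (L - ex d c) := by exact_mod_cast hL
      linear_combination -h5 + 3 * (r : ℤ) * s * h6
    exact_mod_cast h4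

/-- the exponents of the first steps are small -/
def Gd (d : ℤ) : ℕ → ℕ → ℕ → Prop
  | 0, L, _ => 1 ≤ L
  | (m + 1), L, c => ex d c < L ∧ Gd d m (L - ex d c) (S d c)

lemma Gd_per (hd : d = 1 ∨ d = -1) (m : ℕ) : ∀ (L c s : ℕ), c % 2 = 1 → (Gd d m L (c + 2 ^ L * s) ↔ Gd d m L c) := by
  induction m with
  | zero =>
    intro L c s _
    exact Iff.rfl
  | succ m ih =>
    intro L c s hc
    have hsh : ∀ t : ℕ, ex d c < L → ex d (c + 2 ^ L * t) = ex d c ∧ S d (c + 2 ^ L * t) = S d c + 2 ^ (L - ex d c) * (3 * t) := by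
      intro t he
      have h := shift hd (c := c) (L := L) (r := 1) (s := t) (by omega) he
      rw [mul_one] at h
      refine ⟨h.1, h.2.trans ?_⟩
      ring
    show (ex d (c + 2 ^ L * s) < L ∧ Gd d m (L - ex d (c + 2 ^ L * s)) (S d (c + 2 ^ L * s))) ↔ (ex d c < L ∧ Gd d m (L - ex d c) (S d c))
    by_cases he : ex d c < L
    · obtain ⟨h1, h2⟩ := hsh s he
      rw [h1, h2, ih _ _ _ (S_odd hd (by omega))]
    · constructor
      · rintro ⟨h1, _⟩
        exfalso
        apply he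
        -- both numbers are congruent modulo `2 ^ L`
        have h2 : Fact (Nat.Prime 2) := ⟨Nat.prime_two⟩
        have h3 : 2 ^ L ∣ num d c := (pow_dvd_pow 2 (not_lt.1 he)).trans pow_padicValNat_dvd
        have h4 : 2 ^ L ∣ num d (c + 2 ^ L * s) := by
          have e1 := num_cast hd (x := c) (by omega)
          have e2 := num_cast hd (x := c + 2 ^ L * s) (by omega)
          have e3 : num d (c + 2 ^ L * s) = num d c + 2 ^ L * (3 * s) := by
            have : ((num d (c + 2 ^ L * s) : ℕ) : ℤ) = ((num d c + 2 ^ L * (3 * s) : ℕ) : ℤ) := by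
              rw [e2]
              push_cast
              rw [e1]
              ring
            exact_mod_cast this
          rw [e3]
          exact dvd_add h3 (dvd_mul_right _ _)
        have h5 : num d (c + 2 ^ L * s) ≠ 0 := by
          have := num_pos hd (x := c + 2 ^ L * s) (by omega)
          omega
        have h6 := (padicValNat_dvd_iff_le (p := 2) h5).1 h4
        exact absurd h1 (not_lt.2 h6)
      · rintro ⟨h1, _⟩
        exact absurd h1 he

/-- the orbit on a residue class -/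
theorem lin (hd : d = 1 ∨ d = -1) (m : ℕ) : ∀ (L c r : ℕ), c % 2 = 1 → 1 ≤ r → Gd d m L c →
    ∃ Q : ℕ → ℕ, Q 0 = 2 ^ L * r ∧ (∀ i ≤ m, 2 ∣ Q i ∧ 1 ≤ Q i) ∧
      (∀ i ≤ m, ∀ s, (S d)^[i] (c + 2 ^ L * r * s) = (S d)^[i] c + Q i * s) ∧
      (∀ i < m, ∃ e : ℕ, 1 ≤ e ∧ 2 ^ e * Q (i + 1) = 3 * Q i) := by
  induction m with
  | zero =>
    intro L c r _ hr hG
    have hL : 1 ≤ L := hG
    refine ⟨fun _ => 2 ^ L * r, rfl, fun i _ => ⟨?_, ?_⟩, fun i hi s => ?_, fun i hi => by omega⟩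
    · exact Dvd.dvd.mul_right (dvd_pow_self 2 (by omega)) r
    · exact Nat.mul_pos (by positivity) hr
    · have : i = 0 := by omega
      subst this
      rfl
  | succ m ih =>
    intro L c r hc hr hG
    obtain ⟨he, hG'⟩ : ex d c < L ∧ Gd d m (L - ex d c) (S d c) := hG
    obtain ⟨Q, hQ0, hQ1, hQ2, hQ3⟩ := ih (L - ex d c) (S d c) (3 * r) (S_odd hd (by omega)) (by omega) hG'
    have hL : 2 ^ L = 2 ^ ex d c * 2 ^ (L - ex d c) := by
      rw [← pow_add]
      congr 1
      omega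
    refine ⟨fun i => if i = 0 then 2 ^ L * r else Q (i - 1), by simp, fun i hi => ?_, fun i hi s => ?_, fun i hi => ?_⟩
    · rcases Nat.eq_zero_or_pos i with rfl | hi0
      · simp only [if_true]
        refine ⟨Dvd.dvd.mul_right (dvd_pow_self 2 (by omega)) r, Nat.mul_pos (by positivity) hr⟩
      · simp only [if_neg (show ¬ i = 0 by omega)]
        exact hQ1 (i - 1) (by omega)
    · rcases Nat.eq_zero_or_pos i with rfl | hi0
      · simp
      · simp only [if_neg (show ¬ i = 0 by omega)]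
        obtain ⟨j, rfl⟩ : ∃ j, i = j + 1 := ⟨i - 1, by omega⟩
        rw [Function.iterate_succ_apply, Function.iterate_succ_apply, (shift hd (by omega) he).2, hQ2 j (by omega)]
        rfl
    · rcases Nat.eq_zero_or_pos i with rfl | hi0
      · refine ⟨ex d c, ex_pos hd hc, ?_⟩
        simp only [if_true, zero_add, one_ne_zero, if_false, Nat.sub_self]
        rw [hQ0, hL]
        ring
      · simp only [if_neg (show ¬ i = 0 by omega), if_neg (show ¬ i + 1 = 0 by omega)]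
        obtain ⟨j, rfl⟩ : ∃ j, i = j + 1 := ⟨i - 1, by omega⟩
        exact hQ3 j (by omega)

lemma rel {Q : ℕ → ℕ} {m : ℕ} (h : ∀ i < m, ∃ e : ℕ, 1 ≤ e ∧ 2 ^ e * Q (i + 1) = 3 * Q i) {i j : ℕ} (hij : i < j) (hj : j ≤ m) :
    ∃ e : ℕ, 1 ≤ e ∧ 2 ^ e * Q j = 3 ^ (j - i) * Q i := by
  obtain ⟨k, rfl⟩ : ∃ k, j = i + 1 + k := ⟨j - i - 1, by omega⟩
  induction k with
  | zero =>
    obtain ⟨e, he, h1⟩ := h i (by omega)
    refine ⟨e, he, ?_⟩
    rw [add_zero, Nat.add_sub_cancel_left, pow_one]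
    exact h1
  | succ k ih =>
    obtain ⟨e, he, h1⟩ := ih (by omega) (by omega)
    obtain ⟨e', he', h2⟩ := h (i + 1 + k) (by omega)
    refine ⟨e + e', by omega, ?_⟩
    rw [show i + 1 + (k + 1) = i + 1 + k + 1 by ring, pow_add, mul_assoc, h2,
      show i + 1 + k + 1 - i = (i + 1 + k - i) + 1 by omega, pow_succ]
    calc 2 ^ e * (3 * Q (i + 1 + k)) = 3 * (2 ^ e * Q (i + 1 + k)) := by ring
      _ = _ := by rw [h1]; ring

open Classical in
/-- the number of the bad classes -/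
noncomputable def bad (d : ℤ) (m L : ℕ) : ℕ := ((range (2 ^ L)).filter (fun c => c % 2 = 1 ∧ ¬ Gd d m L c)).card

lemma num_sub (hd : d = 1 ∨ d = -1) {c c' L : ℕ} (hc : 1 ≤ c) (hc' : 1 ≤ c') (h1 : c < 2 ^ L) (h2 : c' < 2 ^ L)
    (h : ((num d c : ℕ) : ℤ) ≡ (num d c' : ℕ) [ZMOD 2 ^ L]) : c = c' := by
  rw [num_cast hd hc, num_cast hd hc'] at h
  have h3 : (3 * (c : ℤ)) ≡ 3 * c' [ZMOD 2 ^ L] := Int.ModEq.add_right_cancel' d h
  have h4 : (c : ℤ) ≡ c' [ZMOD 2 ^ L] := by
    have h5 := h3.dvd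
    rw [← mul_sub] at h5
    have h6 : IsCoprime ((2 : ℤ) ^ L) 3 := by
      apply IsCoprime.pow_left
      rw [Int.isCoprime_iff_gcd_eq_one]
      rfl
    exact (Int.modEq_iff_dvd.2 (h6.dvd_of_dvd_mul_left h5))
  have h5 : c ≡ c' [MOD 2 ^ L] := by
    have h6 : ((c : ℕ) : ℤ) ≡ ((c' : ℕ) : ℤ) [ZMOD ((2 ^ L : ℕ) : ℤ)] := by
      push_cast
      exact h4
    exact (Int.natCast_modEq_iff).1 h6
  exact Nat.ModEq.eq_of_lt_of_lt h5 h1 h2

theorem bad_le (hd : d = 1 ∨ d = -1) (m : ℕ) : ∀ L : ℕ, (bad d m L : ℝ) ≤ 3 ^ m * (3 / 2) ^ L := by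
  classical
  have h2f : Fact (Nat.Prime 2) := ⟨Nat.prime_two⟩
  induction m with
  | zero =>
    intro L
    unfold bad
    have : (range (2 ^ L)).filter (fun c => c % 2 = 1 ∧ ¬ Gd d 0 L c) = ∅ := by
      rw [filter_eq_empty_iff]
      rintro c hc ⟨h1, h2⟩
      rw [mem_range] at hc
      apply h2
      show 1 ≤ L
      by_contra hcon
      have h0 : L = 0 := by omega
      rw [h0, pow_zero] at hc
      omega
    rw [this, card_empty, Nat.cast_zero]
    positivity
  | succ m ih =>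
    intro L
    have hsub : (range (2 ^ L)).filter (fun c => c % 2 = 1 ∧ ¬ Gd d (m + 1) L c) ⊆
        (range (2 ^ L)).filter (fun c => c % 2 = 1 ∧ L ≤ ex d c) ∪
        (Ico 1 L).biUnion (fun e => (range (2 ^ L)).filter (fun c => c % 2 = 1 ∧ ex d c = e ∧ ¬ Gd d m (L - e) (S d c))) := by
      intro c hc
      rw [mem_filter, mem_range] at hc
      obtain ⟨h1, h2, h3⟩ := hc
      rw [mem_union, mem_biUnion]
      by_cases he : ex d c < L
      · right
        refine ⟨ex d c, mem_Ico.2 ⟨ex_pos hd h2, he⟩, mem_filter.2 ⟨mem_range.2 h1, h2, rfl, fun h4 => h3 ⟨he, h4⟩⟩⟩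
      · left
        exact mem_filter.2 ⟨mem_range.2 h1, h2, not_lt.1 he⟩
    have hfirst : ((range (2 ^ L)).filter (fun c => c % 2 = 1 ∧ L ≤ ex d c)).card ≤ 1 := by
      rw [card_le_one]
      intro c hc c' hc'
      rw [mem_filter, mem_range] at hc hc'
      apply num_sub hd (by omega) (by omega) hc.1 hc'.1
      have h1 : 2 ^ L ∣ num d c := (pow_dvd_pow 2 hc.2.2).trans pow_padicValNat_dvd
      have h2 : 2 ^ L ∣ num d c' := (pow_dvd_pow 2 hc'.2.2).trans pow_padicValNat_dvd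
      have h3 : ((2 : ℤ) ^ L) ∣ (num d c : ℕ) := by exact_mod_cast h1
      have h4 : ((2 : ℤ) ^ L) ∣ (num d c' : ℕ) := by exact_mod_cast h2
      exact (Int.modEq_zero_iff_dvd.2 h3).trans (Int.modEq_zero_iff_dvd.2 h4).symm
    have hsecond : ∀ e ∈ Ico 1 L, ((range (2 ^ L)).filter (fun c => c % 2 = 1 ∧ ex d c = e ∧ ¬ Gd d m (L - e) (S d c))).card ≤
        bad d m (L - e) := by
      intro e he
      rw [mem_Ico] at he
      unfold bad
      apply card_le_card_of_injOn (fun c => S d c % 2 ^ (L - e))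
      · intro c hc
        rw [coe_filter, Set.mem_ofPred_eq, mem_range] at hc
        obtain ⟨h1, h2, h3, h4⟩ := hc
        rw [coe_filter, Set.mem_ofPred_eq, mem_range]
        have hS := S_odd hd (x := c) (by omega)
        have hodd : S d c % 2 ^ (L - e) % 2 = 1 := by
          rw [Nat.mod_mod_of_dvd _ (dvd_pow_self 2 (by omega))]
          exact hS
        refine ⟨Nat.mod_lt _ (by positivity), hodd, fun h5 => h4 ?_⟩
        have h6 := Gd_per hd m (L - e) (S d c % 2 ^ (L - e)) (S d c / 2 ^ (L - e)) hodd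
        rw [Nat.mod_add_div] at h6
        exact h6.2 h5
      · intro c hc c' hc' hcc
        rw [coe_filter, Set.mem_ofPred_eq, mem_range] at hc hc'
        apply num_sub hd (by omega) (by omega) hc.1 hc'.1
        rw [num_eq hd (x := c) (by omega), num_eq hd (x := c') (by omega), hc.2.2.1, hc'.2.2.1]
        have h1 : S d c ≡ S d c' [MOD 2 ^ (L - e)] := hcc
        have h2 := Nat.ModEq.mul_left' (2 ^ e) h1
        rw [← pow_add, show e + (L - e) = L by omega] at h2
        have h3 := (Int.natCast_modEq_iff (a := 2 ^ e * S d c) (b := 2 ^ e * S d c') (n := 2 ^ L)).2 h2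
        push_cast at h3 ⊢
        exact h3
    have h1 : (bad d (m + 1) L : ℝ) ≤ 1 + ∑ e ∈ Ico 1 L, (bad d m (L - e) : ℝ) := by
      unfold bad at hsecond ⊢
      have h2 := (card_le_card hsub).trans ((card_union_le _ _).trans (add_le_add hfirst (card_biUnion_le.trans (sum_le_sum hsecond))))
      exact_mod_cast h2
    refine h1.trans ?_
    have h2 : ∑ e ∈ Ico 1 L, (bad d m (L - e) : ℝ) ≤ 3 ^ m * (2 * (3 / 2) ^ L) := by
      refine (sum_le_sum fun e _ => ih (L - e)).trans ?_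
      rw [← mul_sum]
      apply mul_le_mul_of_nonneg_left _ (by positivity)
      have h3 : ∀ k : ℕ, ∑ e ∈ Ico 1 (k + 1), ((3 : ℝ) / 2) ^ (k + 1 - e) ≤ 2 * (3 / 2) ^ (k + 1) - 3 := by
        intro k
        induction k with
        | zero => norm_num
        | succ k ihk =>
          rw [sum_Ico_succ_top (by omega)]
          have h4 : ∑ e ∈ Ico 1 (k + 1), ((3 : ℝ) / 2) ^ (k + 1 + 1 - e) = 3 / 2 * ∑ e ∈ Ico 1 (k + 1), ((3 : ℝ) / 2) ^ (k + 1 - e) := by
            rw [mul_sum]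
            apply sum_congr rfl
            intro e he
            rw [mem_Ico] at he
            rw [show k + 1 + 1 - e = (k + 1 - e) + 1 by omega, pow_succ]
            ring
          rw [h4, Nat.add_sub_cancel_left, pow_one, pow_succ ((3 : ℝ) / 2) (k + 1)]
          linarith
      rcases Nat.eq_zero_or_pos L with rfl | hL
      · simp
      · obtain ⟨k, rfl⟩ : ∃ k, L = k + 1 := ⟨L - 1, by omega⟩
        have := h3 k
        linarith
    have h3 : (1 : ℝ) ≤ 3 ^ m * (3 / 2) ^ L := by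
      have e1 : (1 : ℝ) ≤ 3 ^ m := one_le_pow₀ (by norm_num)
      have e2 : (1 : ℝ) ≤ (3 / 2) ^ L := one_le_pow₀ (by norm_num)
      nlinarith
    rw [pow_succ]
    linarith

end Pool.Agent.Helper65.TR
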