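import Pool.Agent.R344.SP.S
import Pool.Agent.R344.SP.Q
import Pool.Agent.R344.SP.I
import Pool.Agent.Helper65.LT.Full

set_option autoImplicit false

/-! The transfer principle for the `3x+1` and the `3x-1` map: if the local averages of bounded functions are small
on the average, then the sums of the functions along almost all trajectories are small. -/

namespace Pool.Agent.Helper65.TR

open Finset
open Pool.Agent.H499R2.CO (Tz)
open R344.SP (kappa_bridge core_sets sampling finish ct Wn mem_Wn Zs ind)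
open Pool.Agent.Helper65.LT (ncard_le_add extend)

/-- the map `n / 2`, `(3 n + d) / 2` on the natural numbers, `d = ± 1` -/
def U (d : ℤ) (n : ℕ) : ℕ := (Tz d n).toNat

variable {d : ℤ}

lemma U_cast (hd : d = 1 ∨ d = -1) (n : ℕ) : ((U d n : ℕ) : ℤ) = Tz d n := by
  unfold U
  rw [Int.toNat_of_nonneg]
  unfold Tz
  rcases hd with rfl | rfl <;> split_ifs <;> omega

lemma U_iter (hd : d = 1 ∨ d = -1) (n k : ℕ) : (((U d)^[k] n : ℕ) : ℤ) = (Tz d)^[k] n := by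
  induction k with
  | zero => rfl
  | succ k ih => rw [Function.iterate_succ_apply', Function.iterate_succ_apply', U_cast hd, ih]

lemma U_pos (hd : d = 1 ∨ d = -1) {n : ℕ} (hn : 1 ≤ n) : 1 ≤ U d n := by
  have h := U_cast hd n
  unfold Tz at h
  rcases hd with rfl | rfl <;> split_ifs at h <;> omega

lemma iter_pos (hd : d = 1 ∨ d = -1) {n : ℕ} (hn : 1 ≤ n) (k : ℕ) : 1 ≤ (U d)^[k] n := by
  induction k with
  | zero => exact hn
  | succ k ih => rw [Function.iterate_succ_apply']; exact U_pos hd ih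

lemma odd_d (hd : d = 1 ∨ d = -1) : d % 2 = 1 := by rcases hd with rfl | rfl <;> decide

lemma cop_d (hd : d = 1 ∨ d = -1) : IsCoprime d 3 := by
  rcases hd with rfl | rfl
  · exact isCoprime_one_left
  · exact isCoprime_one_left.neg_left

theorem samp (hd : d = 1 ∨ d = -1) (κ ε : ℝ) (hκ : κ < 2 / Real.log (4 / 3)) (hε : 0 < ε) :
    ∃ m : ℕ, ∀ q H : ℕ, 3 ^ m ∣ q → 1 ≤ H → ∃ N₀ : ℕ, ∀ N ≥ N₀, ∀ g : ℕ → ℕ → ℝ,
      (∀ k x, |g k x| ≤ 1) →
        (Set.ncard {n : ℕ | 1 ≤ n ∧ n ≤ N ∧ ∃ t : ℕ, (t : ℝ) ≤ κ * Real.log n ∧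
          ε * Real.log n < |∑ k ∈ Finset.range t,
            (g k ((U d)^[k] n) - (∑ h ∈ Finset.range H, g k ((U d)^[k] n + q * h)) / H)|} : ℝ) ≤ ε * N := by
  obtain ⟨κ', hκ0, hκκ, hκ1⟩ := kappa_bridge hκ
  obtain ⟨m, hm⟩ := sampling (d := d) (odd_d hd) (cop_d hd) hκ0 hκ1 (ε := ε / 2)
    (by positivity)
  refine ⟨m, fun q H hq hH => ?_⟩
  obtain ⟨N₀, hN₀⟩ := hm q H (by
    obtain ⟨c, rfl⟩ := hq
    rcases hd with rfl | rfl
    · exact ⟨c, by push_cast; ring⟩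
    · exact ⟨-c, by push_cast; ring⟩) hH
  obtain ⟨N₁, hN₁⟩ := finish (α := {g : ℕ → ℕ → ℝ // ∀ k x, |g k x| ≤ 1}) hκκ
    (fun g n t => |∑ k ∈ Finset.range t,
      (g.1 k ((U d)^[k] n) - (∑ h ∈ Finset.range H, g.1 k ((U d)^[k] n + q * h)) / H)|) hε (by
    refine ⟨N₀, fun N hN g S hS => ?_⟩
    refine hN₀ N hN (fun k x => g.1 k x.toNat) (fun k x => g.2 _ _) S ?_
    intro n hn
    obtain ⟨h1, h2, t, ht, hbig⟩ := hS n hn
    refine ⟨h1, h2, t, ht, hbig.trans_eq ?_⟩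
    congr 1
    apply Finset.sum_congr rfl
    intro k _
    rw [← U_iter hd n k]
    have : ∀ h : ℕ, (((U d)^[k] n : ℕ) : ℤ) + (q : ℤ) * h = (((U d)^[k] n + q * h : ℕ) : ℤ) := by
      intro h; push_cast; rfl
    simp only [this, Int.toNat_natCast])
  exact ⟨N₁, fun N hN g hg => hN₁ N hN ⟨g, hg⟩⟩

/-- the number of positive elements up to `X` -/
noncomputable def count (A : Set ℕ) (X : ℝ) : ℝ :=
  (Set.ncard {a : ℕ | a ∈ A ∧ 1 ≤ a ∧ (a : ℝ) ≤ X} : ℝ)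

/-- the number of visits -/
noncomputable def visits (d : ℤ) (A : ℕ → Set ℕ) (n t : ℕ) : ℝ :=
  (Set.ncard {k : ℕ | k < t ∧ (U d)^[k] n ∈ A k} : ℝ)

theorem visits_eq (hd : d = 1 ∨ d = -1) (A : ℕ → Set ℕ) (n t : ℕ) :
    visits d A n t = Zs d (ind fun s => (fun a : ℕ => (a : ℤ)) '' A s) 0 t n := by
  classical
  unfold visits Zs
  have h1 : {k : ℕ | k < t ∧ (U d)^[k] n ∈ A k}
      = (((Finset.range t).filter (fun k => (U d)^[k] n ∈ A k) : Finset ℕ) : Set ℕ) := by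
    ext k
    rw [Finset.coe_filter]
    simp only [Finset.mem_range, Set.mem_ofPred_eq]
  rw [h1, Set.ncard_coe_finset, Finset.card_filter]
  push_cast
  apply Finset.sum_congr rfl
  intro k _
  unfold ind
  rw [zero_add, ← U_iter hd]
  by_cases h : (U d)^[k] n ∈ A k
  · rw [if_pos h, if_pos ⟨_, h, rfl⟩]
  · rw [if_neg h, if_neg]
    rintro ⟨a, ha, hae⟩
    apply h
    have hae' : ((a : ℕ) : ℤ) = (((U d)^[k] n : ℕ) : ℤ) := hae
    have : a = (U d)^[k] n := by exact_mod_cast hae'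
    rwa [← this]

theorem uniform (hd : d = 1 ∨ d = -1) (κ ε : ℝ) (hκ : κ < 2 / Real.log (4 / 3)) (hε : 0 < ε) :
    ∃ δ : ℝ, 0 < δ ∧ ∀ X₀ : ℝ, ∃ N₀ : ℕ, ∀ N ≥ N₀, ∀ A : ℕ → Set ℕ,
      (∀ k, ∀ X : ℝ, X₀ ≤ X → count (A k) X ≤ δ * X) →
      (Set.ncard {n : ℕ | 1 ≤ n ∧ n ≤ N ∧ ∃ t : ℕ, (t : ℝ) ≤ κ * Real.log n ∧
        ε * Real.log n < visits d A n t} : ℝ) ≤ ε * N := by
  classical
  obtain ⟨κ', hκ0, hκκ, hκ1⟩ := kappa_bridge hκ
  obtain ⟨ε₁, hε₁, hcore⟩ := core_sets (d := d) (odd_d hd) (cop_d hd) hκ0 hκ1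
    (ε := ε / 2) (by positivity)
  refine ⟨ε₁ / 2, by positivity, fun X₀ => ?_⟩
  obtain ⟨N₀, hN₀⟩ := hcore (max X₀ 1)
  obtain ⟨N₁, hN₁⟩ := finish (α := {A : ℕ → Set ℕ // ∀ k, ∀ X : ℝ, X₀ ≤ X → count (A k) X ≤ ε₁ / 2 * X})
    hκκ (fun A n t => visits d A.1 n t) hε (by
    refine ⟨N₀, fun N hN A S hS => ?_⟩
    refine hN₀ N hN (fun s => (fun a : ℕ => (a : ℤ)) '' A.1 s) ?_ S ?_
    · intro s L hL
      have hL1 : 1 ≤ L := (le_max_right _ _).trans hL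
      have hLX : X₀ ≤ L := (le_max_left _ _).trans hL
      have h1 := A.2 s (2 * L) (by linarith)
      refine le_trans ?_ (h1.trans (le_of_eq (by ring)))
      unfold ct count
      have hfin : {a : ℕ | a ∈ A.1 s ∧ 1 ≤ a ∧ (a : ℝ) ≤ 2 * L}.Finite := by
        apply (Set.finite_Iic ⌊2 * L⌋₊).subset
        intro a ha
        rw [Set.mem_Iic, Nat.le_floor_iff (by linarith)]
        exact ha.2.2
      rw [Set.ncard_eq_toFinset_card _ hfin]
      have hsub : (Wn L).filter (fun n => n ∈ (fun a : ℕ => (a : ℤ)) '' A.1 s)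
          ⊆ hfin.toFinset.image (fun a : ℕ => (a : ℤ)) := by
        intro x hx
        rw [Finset.mem_filter, mem_Wn] at hx
        obtain ⟨⟨h2, h3⟩, a, ha, rfl⟩ := hx
        rw [Finset.mem_image]
        refine ⟨a, ?_, rfl⟩
        rw [Set.Finite.mem_toFinset]
        push_cast at h2 h3
        refine ⟨ha, ?_, h3.le⟩
        have : (1 : ℝ) ≤ a := by linarith
        exact_mod_cast this
      exact_mod_cast (Finset.card_le_card hsub).trans Finset.card_image_le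
    · intro n hn
      obtain ⟨h1, h2, t, ht, hbig⟩ := hS n hn
      refine ⟨h1, h2, t, ht, hbig.trans_le ?_⟩
      rw [visits_eq hd]
      exact le_abs_self _)
  exact ⟨N₁, fun N hN A hA => hN₁ N hN ⟨A, hA⟩⟩

/-- the transfer principle up to `n ^ o(1)` -/
theorem transfer' (hd : d = 1 ∨ d = -1) {κ ε : ℝ} (hκ : κ < 2 / Real.log (4 / 3)) (hε : 0 < ε) :
    ∃ m : ℕ, ∃ δ : ℝ, 0 < δ ∧ ∀ q H : ℕ, 1 ≤ q → 3 ^ m ∣ q → 1 ≤ H → ∀ X₀ : ℕ, ∃ N₀ : ℕ, ∀ N ≥ N₀, ∀ g : ℕ → ℕ → ℝ,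
      (∀ k x, |g k x| ≤ 1) →
      (∀ k, ∀ X ≥ X₀, ∑ x ∈ Icc 1 X, |∑ j ∈ range H, g k (x + q * j)| ≤ δ * H * X) →
      (Set.ncard {n : ℕ | 1 ≤ n ∧ n ≤ N ∧ ∃ t : ℕ, (t : ℝ) ≤ κ * Real.log n ∧ ε * Real.log n <
        |∑ k ∈ range t, g k ((U d)^[k] n)|} : ℝ) ≤ ε * N := by
  classical
  obtain ⟨κ', hκ'⟩ : ∃ κ' : ℝ, κ' = max κ 1 := ⟨_, rfl⟩
  have hc1 : 1 < 2 / Real.log (4 / 3) := by
    have h0 : 0 < Real.log (4 / 3) := Real.log_pos (by norm_num)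
    have h1 : Real.log (4 / 3 : ℝ) < 4 / 3 - 1 := Real.log_lt_sub_one_of_pos (by norm_num) (by norm_num)
    rw [lt_div_iff₀ h0]
    linarith
  have hκ1 : κ' < 2 / Real.log (4 / 3) := by rw [hκ']; exact max_lt hκ hc1
  have hκ0 : 1 ≤ κ' := by rw [hκ']; exact le_max_right _ _
  have hκκ : κ ≤ κ' := by rw [hκ']; exact le_max_left _ _
  obtain ⟨m, hm⟩ := samp hd κ' (ε / 4) hκ1 (by positivity)
  obtain ⟨δ, hδ, hu⟩ := uniform hd κ' (ε / 4) hκ1 (by positivity)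
  set e' : ℝ := ε / (4 * κ') with he'
  have he0 : 0 < e' := by positivity
  refine ⟨m, δ * e' / 2, by positivity, fun q H hq1 hq hH1 X₁ => ?_⟩
  have hHr : (0 : ℝ) < H := by exact_mod_cast hH1
  obtain ⟨N₁, hN₁⟩ := hm q H hq hH1
  obtain ⟨N₂, hN₂⟩ := hu ((X₁ : ℝ) + 1)
  refine ⟨max N₁ N₂, fun N hN g hgb hX₁ => ?_⟩
  set A : ℕ → Set ℕ := fun k => {x | e' < |∑ j ∈ range H, g k (x + q * j)| / H} with hA
  have hAc : ∀ k, ∀ X : ℝ, (X₁ : ℝ) + 1 ≤ X → count (A k) X ≤ δ * X := by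
    intro k X hX
    have hX0 : (0 : ℝ) < X := by
      have : (0 : ℝ) ≤ X₁ := Nat.cast_nonneg _
      linarith
    have hfl : X₁ ≤ ⌊X⌋₊ := Nat.le_floor (by linarith)
    have h1 := hX₁ k ⌊X⌋₊ hfl
    unfold count
    have h2 : {a : ℕ | a ∈ A k ∧ 1 ≤ a ∧ (a : ℝ) ≤ X} = (((Icc 1 ⌊X⌋₊).filter (fun a => a ∈ A k) : Finset ℕ) : Set ℕ) := by
      ext a
      rw [Finset.coe_filter]
      simp only [Set.mem_ofPred_eq, mem_Icc]
      constructor
      · rintro ⟨h3, h4, h5⟩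
        exact ⟨⟨h4, Nat.le_floor h5⟩, h3⟩
      · rintro ⟨⟨h4, h5⟩, h3⟩
        exact ⟨h3, h4, (Nat.cast_le.2 h5).trans (Nat.floor_le hX0.le)⟩
    rw [h2, Set.ncard_coe_finset]
    have h3 : (((Icc 1 ⌊X⌋₊).filter (fun a => a ∈ A k)).card : ℝ) * (e' * H) ≤ δ * e' / 2 * H * ⌊X⌋₊ := by
      refine le_trans ?_ h1
      rw [← nsmul_eq_mul, ← sum_const]
      refine le_trans (sum_le_sum (g := fun x => |∑ j ∈ range H, g k (x + q * j)|) ?_) ?_
      · intro x hx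
        rw [mem_filter] at hx
        have h4 : e' < |∑ j ∈ range H, g k (x + q * j)| / H := hx.2
        rw [lt_div_iff₀ hHr] at h4
        exact h4.le
      · apply sum_le_sum_of_subset_of_nonneg (filter_subset _ _)
        intro _ _ _
        exact abs_nonneg _
    have h5 : δ * e' / 2 * H * ⌊X⌋₊ ≤ (δ * X) * (e' * H) := by
      have h6 : (⌊X⌋₊ : ℝ) ≤ X := Nat.floor_le hX0.le
      have h7 : δ * e' / 2 * H * ⌊X⌋₊ = (δ / 2 * ⌊X⌋₊) * (e' * H) := by ring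
      rw [h7]
      apply mul_le_mul_of_nonneg_right _ (by positivity)
      nlinarith [Nat.cast_nonneg (α := ℝ) ⌊X⌋₊]
    exact le_of_mul_le_mul_right (h3.trans h5) (by positivity)
  have hB1 := hN₁ N ((le_max_left _ _).trans hN) g hgb
  have hB2 := hN₂ N ((le_max_right _ _).trans hN) A hAc
  have hN0 : (0 : ℝ) ≤ N := Nat.cast_nonneg _
  refine (ncard_le_add ?_).trans ((add_le_add hB1 hB2).trans ?_)
  swap
  · nlinarith
  rintro n hn1 hnN ⟨t, ht, hbig⟩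
  by_contra hcon
  push Not at hcon
  obtain ⟨hc1, hc2⟩ := hcon
  have hlog : 0 ≤ Real.log n := Real.log_nonneg (by exact_mod_cast hn1)
  have ht' : (t : ℝ) ≤ κ' * Real.log n := ht.trans (mul_le_mul_of_nonneg_right hκκ hlog)
  have h1 := hc1 t ht'
  have h2 := hc2 t ht'
  have h3 : |∑ k ∈ range t, (∑ j ∈ range H, g k ((U d)^[k] n + q * j)) / H| ≤ visits d A n t + e' * t := by
    refine (abs_sum_le_sum_abs _ _).trans ?_
    have h4 : visits d A n t = ∑ k ∈ range t, if (U d)^[k] n ∈ A k then (1 : ℝ) else 0 := by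
      unfold visits
      have h5 : {k : ℕ | k < t ∧ (U d)^[k] n ∈ A k}
          = (((Finset.range t).filter (fun k => (U d)^[k] n ∈ A k) : Finset ℕ) : Set ℕ) := by
        ext k
        rw [Finset.coe_filter]
        simp only [Finset.mem_range, Set.mem_ofPred_eq]
      rw [h5, Set.ncard_coe_finset, Finset.card_filter]
      push_cast
      rfl
    have h6 : e' * t = ∑ k ∈ range t, e' := by rw [sum_const, card_range, nsmul_eq_mul]; ring
    rw [h4, h6, ← sum_add_distrib]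
    apply sum_le_sum
    intro k _
    by_cases h9 : (U d)^[k] n ∈ A k
    · rw [if_pos h9]
      have h10 : |(∑ j ∈ range H, g k ((U d)^[k] n + q * j)) / H| ≤ 1 := by
        rw [abs_div, abs_of_pos hHr, div_le_one hHr]
        refine (abs_sum_le_sum_abs _ _).trans ?_
        refine (sum_le_sum fun j _ => hgb k _).trans ?_
        rw [sum_const, card_range, nsmul_eq_mul, mul_one]
      linarith
    · rw [if_neg h9]
      have h10 : ¬ e' < |∑ j ∈ range H, g k ((U d)^[k] n + q * j)| / H := h9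
      rw [abs_div, abs_of_pos hHr]
      linarith
  have h11 : ∑ k ∈ range t, g k ((U d)^[k] n) = ∑ k ∈ range t, (g k ((U d)^[k] n) -
      (∑ j ∈ range H, g k ((U d)^[k] n + q * j)) / H) + ∑ k ∈ range t, (∑ j ∈ range H, g k ((U d)^[k] n + q * j)) / H := by
    rw [← sum_add_distrib]
    apply sum_congr rfl
    intro k _
    ring
  have h12 : |∑ k ∈ range t, g k ((U d)^[k] n)| ≤ ε / 4 * Real.log n + (ε / 4 * Real.log n + e' * t) := by
    rw [h11]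
    exact (abs_add_le _ _).trans (add_le_add h1 (h3.trans (by linarith)))
  have h13 : e' * t ≤ ε / 4 * Real.log n := by
    calc e' * t ≤ e' * (κ' * Real.log n) := mul_le_mul_of_nonneg_left ht' he0.le
      _ = ε / 4 * Real.log n := by rw [he']; field_simp
  have h14 : ε * Real.log n < |∑ k ∈ range t, g k ((U d)^[k] n)| := hbig
  nlinarith

/-- the transfer principle, full range -/
theorem transfer (hd : d = 1 ∨ d = -1) {ε : ℝ} (hε : 0 < ε) :
    ∃ m : ℕ, ∃ δ : ℝ, 0 < δ ∧ ∀ q H : ℕ, 1 ≤ q → 3 ^ m ∣ q → 1 ≤ H → ∀ X₀ : ℕ, ∃ N₀ : ℕ, ∀ N ≥ N₀, ∀ g : ℕ → ℕ → ℝ,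
      (∀ k x, |g k x| ≤ 1) →
      (∀ k, ∀ X ≥ X₀, ∑ x ∈ Icc 1 X, |∑ j ∈ range H, g k (x + q * j)| ≤ δ * H * X) →
      (Set.ncard {n : ℕ | 1 ≤ n ∧ n ≤ N ∧ ∃ t : ℕ, (t : ℝ) ≤ 2 / Real.log (4 / 3) * Real.log n ∧ ε * Real.log n <
        |∑ k ∈ range t, g k ((U d)^[k] n)|} : ℝ) ≤ ε * N := by
  set c := 2 / Real.log (4 / 3) with hc
  have hc0 : 0 < c := by
    have h0 : 0 < Real.log (4 / 3) := Real.log_pos (by norm_num)
    positivity
  obtain ⟨κ, hκ⟩ : ∃ κ : ℝ, κ = max (c - ε / 4) 0 := ⟨_, rfl⟩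
  have hκ0 : 0 ≤ κ := by rw [hκ]; exact le_max_right _ _
  have hκ1 : κ < c := by rw [hκ]; exact max_lt (by linarith) hc0
  have hκ2 : c - κ ≤ ε / 4 := by
    have := le_max_left (c - ε / 4) 0
    rw [← hκ] at this
    linarith
  obtain ⟨m, δ, hδ, hmain⟩ := transfer' hd hκ1 (ε := ε / 2) (by positivity)
  refine ⟨m, δ, hδ, fun q H hq1 hq hH X₀ => ?_⟩
  obtain ⟨N₁, hN₁⟩ := hmain q H hq1 hq hH X₀
  obtain ⟨K, hK⟩ := exists_nat_ge (Real.exp (4 / ε))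
  obtain ⟨N₂, hN₂⟩ := exists_nat_ge (2 * K / ε)
  refine ⟨max N₁ N₂, fun N hN g hgb hg => ?_⟩
  have hA := hN₁ N ((le_max_left _ _).trans hN) g hgb hg
  have hN2 : 2 * K / ε ≤ (N : ℝ) := hN₂.trans (by exact_mod_cast (le_max_right _ _).trans hN)
  have hKN : (K : ℝ) ≤ ε / 2 * N := by
    rw [div_le_iff₀ hε] at hN2
    linarith
  refine (ncard_le_add (Q := fun n => ∃ t : ℕ, (t : ℝ) ≤ κ * Real.log n ∧ ε / 2 * Real.log n < |∑ k ∈ range t, g k ((U d)^[k] n)|)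
    (R := fun n => n ≤ K ∧ True) ?_).trans ((add_le_add hA ((Pool.Agent.Helper65.LT.ncard_small _ N K).trans hKN)).trans (by linarith))
  rintro n hn1 hnN ⟨t, ht, hbig⟩
  by_cases hnK : n ≤ K
  · exact Or.inr ⟨hnK, trivial⟩
  left
  push Not at hnK
  have hn0 : (0 : ℝ) < n := by exact_mod_cast hn1
  have hlog : 4 / ε ≤ Real.log n := by
    rw [Real.le_log_iff_exp_le hn0]
    exact hK.trans (by exact_mod_cast hnK.le)
  have hlog1 : 1 ≤ ε / 4 * Real.log n := by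
    rw [div_le_iff₀ hε] at hlog
    linarith
  have hlog0 : 0 ≤ Real.log n := Real.log_nonneg (by exact_mod_cast hn1)
  by_cases ht1 : (t : ℝ) ≤ κ * Real.log n
  · refine ⟨t, ht1, lt_of_le_of_lt ?_ hbig⟩
    nlinarith
  push Not at ht1
  refine ⟨⌊κ * Real.log n⌋₊, Nat.floor_le (by positivity), ?_⟩
  have h1 : ⌊κ * Real.log n⌋₊ ≤ t := by
    have : (⌊κ * Real.log n⌋₊ : ℝ) ≤ t := (Nat.floor_le (by positivity)).trans ht1.le
    exact_mod_cast this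
  have h2 : |∑ k ∈ range t, g k ((U d)^[k] n)| ≤ |∑ k ∈ range ⌊κ * Real.log n⌋₊, g k ((U d)^[k] n)| +
      ((t : ℝ) - ⌊κ * Real.log n⌋₊) := by
    rw [← Finset.sum_range_add_sum_Ico _ h1]
    refine (abs_add_le _ _).trans (add_le_add le_rfl ?_)
    refine (abs_sum_le_sum_abs _ _).trans ((sum_le_sum fun k _ => hgb k _).trans ?_)
    rw [sum_const, Nat.card_Ico, nsmul_eq_mul, mul_one, Nat.cast_sub h1]
  have h3 : κ * Real.log n < ⌊κ * Real.log n⌋₊ + 1 := Nat.lt_floor_add_one _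
  have h4 : (c - κ) * Real.log n ≤ ε / 4 * Real.log n := mul_le_mul_of_nonneg_right hκ2 hlog0
  nlinarith

end Pool.Agent.Helper65.TR
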